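import Mathlib
import Pool.Agent.Helper35.PP.Total

/-!
MP_bec853_al, exactness of the growth rate for large rank: definitions and statements of the steps.
-/

namespace Pool.Agent.Helper35.PX

open FreeGroup Pool.Agent.Helper35.PP
open scoped ENNReal

/-- Bounded cancellation with the volume constant. -/
def StmtBCC : Prop :=
  ∀ (α : Type) [Fintype α] [DecidableEq α] (θ : FreeGroup α ≃* FreeGroup α) (g h : FreeGroup α),
    (g * h).norm = g.norm + h.norm →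
    (θ g).norm + (θ h).norm + 2 * Fintype.card α ≤
      (θ (g * h)).norm + 2 * ∑ x, (θ (FreeGroup.of x)).norm

/-- the axis of the generator `z` is cut by `E` -/
def AxisCut {α : Type} (z : α) (E : Set (FreeGroup α)) : Prop :=
  ∃ g, {n : ℤ | g * FreeGroup.of z ^ n ∈ E}.Infinite ∧
    {n : ℤ | g * FreeGroup.of z ^ n ∉ E}.Infinite

/-- Relative leaf theorem. -/
def StmtB : Prop :=
  ∀ (α : Type) [Fintype α] [DecidableEq α] (V : Finset α) (E : Set (FreeGroup α)) (z : α),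
    z ∈ V → Good E → AxisCut z E →
    ∃ f : FreeGroup α ≃* FreeGroup α, (∀ y ∈ V, f (FreeGroup.of y) = FreeGroup.of y) ∧
      ∃ g A B, IsLeaf (f ⁻¹' E) g A B ∧ (∃ x ∈ A, x.1 ∈ V) ∧ (∃ x ∈ B, x.1 ∈ V)

/-- closed under taking factors -/
def FactorClosed {β : Type} (S : Set (List β)) : Prop := ∀ a b c, a ++ b ++ c ∈ S → b ∈ S

/-- Elimination of a letter `ρ` which is always followed by one of few letters. -/
def StmtElimF : Prop :=
  ∀ (β : Type) (z w0 : ℝ) (S : Set (List β)) (ρ : β) (X : Finset β),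
    0 ≤ z → z < 1 → FactorClosed S → (∀ a y b, a ++ ρ :: y :: b ∈ S → y ∈ X) → 0 ≤ w0 →
    W (ENNReal.ofReal z) {v | v ∈ S ∧ ρ ∉ v} ≤ ENNReal.ofReal w0 →
    (X.card : ℝ) * z ^ 2 / (1 - z) * w0 < 1 →
    W (ENNReal.ofReal z) S ≤
      ENNReal.ofReal (w0 / ((1 - z) * (1 - (X.card : ℝ) * z ^ 2 / (1 - z) * w0)))

/-- Elimination of a letter `ρ` which is always preceded by one of few letters. -/
def StmtElimP : Prop :=
  ∀ (β : Type) (z w0 : ℝ) (S : Set (List β)) (ρ : β) (X : Finset β),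
    0 ≤ z → z < 1 → FactorClosed S → (∀ a y b, a ++ y :: ρ :: b ∈ S → y ∈ X) → 0 ≤ w0 →
    W (ENNReal.ofReal z) {v | v ∈ S ∧ ρ ∉ v} ≤ ENNReal.ofReal w0 →
    (X.card : ℝ) * z ^ 2 / (1 - z) * w0 < 1 →
    W (ENNReal.ofReal z) S ≤
      ENNReal.ofReal (w0 / ((1 - z) * (1 - (X.card : ℝ) * z ^ 2 / (1 - z) * w0)))

/-- no bad pair of consecutive letters different from `i` -/
def NB {α : Type} (i : α) (bad : (α × Bool) → (α × Bool) → Prop) (v : List (α × Bool)) : Prop :=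
  ∀ a x y b, v = a ++ x :: y :: b → x.1 ≠ i → y.1 ≠ i → ¬ bad x y

/-- in a block between two occurrences of `i`, a bad pair `x y` is allowed only if the part up to
`x` is a prefix of a fixed word or the part from `y` on is a suffix of a fixed word -/
def ZRule {α : Type} (i : α) (bad : (α × Bool) → (α × Bool) → Prop)
    (P Q : Bool → List (α × Bool)) (u : List (α × Bool)) : Prop :=
  ∀ l w1 x y w2 r s σ, u = l ++ (i, s) :: ((w1 ++ x :: y :: w2) ++ (i, σ) :: r) →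
    (∀ t ∈ w1 ++ x :: y :: w2, t.1 ≠ i) → bad x y →
    (y :: w2 <:+ Q σ) ∨ (w1 ++ [x] <+: P s)

/-- Elimination of the dictionary of the letter `i`. -/
def StmtDict : Prop :=
  ∀ (α : Type) [Fintype α] [DecidableEq α] (i : α) (bad : (α × Bool) → (α × Bool) → Prop)
    (S : Set (List (α × Bool))) (z ω : ℝ),
    0 < z → z < 1 → FactorClosed S → 0 ≤ ω →
    W (ENNReal.ofReal z) {v | v ∈ S ∧ ∀ x ∈ v, x.1 ≠ i} < ⊤ →
    W (ENNReal.ofReal z) {v | v ∈ S ∧ NB i bad v} ≤ ENNReal.ofReal ω →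
    2 * z ^ 2 * (2 - z) / (1 - z) ^ 2 * ω < 1 →
    W (ENNReal.ofReal z) {u | u ∈ S ∧ ∃ P Q, ZRule i bad P Q u} < ⊤

/-- generic consecutive letters: not both in `{i, j}`, and no cancellation with the first letter
`fl y` (last letter `ll x`) of the image word -/
def GP {α : Type} (i j : α) (fl ll : (α × Bool) → (α × Bool)) (x y : α × Bool) : Prop :=
  ¬ ((x.1 = i ∨ x.1 = j) ∧ (y.1 = i ∨ y.1 = j)) ∧
    ((x.1 = i ∨ x.1 = j) → nv y ≠ ll x) ∧ ((y.1 = i ∨ y.1 = j) → nv x ≠ fl y)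

/-- third restriction -/
def R3 {α : Type} (i j : α) (fl ll : (α × Bool) → (α × Bool)) (A B : Finset (α × Bool))
    (v : List (α × Bool)) : Prop :=
  ∀ l a x y b r, v = l ++ (a ++ x :: y :: b) ++ r →
    (a ++ x :: y :: b).IsChain (GP i j fl ll) →
    x.1 ≠ i → x.1 ≠ j → y.1 ≠ i → y.1 ≠ j →
    (∃ t ∈ a, t.1 = i) → (∃ t ∈ a, t.1 = j) → (∃ t ∈ b, t.1 = i) → (∃ t ∈ b, t.1 = j) →
    nv x ∈ A → y ∉ B

/-- the letters different from `i` and `j` -/
def Yl {α : Type} [Fintype α] [DecidableEq α] (i j : α) : Finset (α × Bool) :=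
  Finset.univ.filter (fun x => x.1 ≠ i ∧ x.1 ≠ j)

/-- Bound for the generic words with the third restriction. -/
def StmtF0 : Prop :=
  ∀ (α : Type) [Fintype α] [DecidableEq α] (i j : α) (gi gj : α × Bool)
    (fl ll : (α × Bool) → (α × Bool)) (A B : Finset (α × Bool)),
    100 ≤ Fintype.card α → i ≠ j → gi.1 = i → gj.1 = j →
    W (ENNReal.ofReal (1 / (2 * Fintype.card α - 3))) (Lang (Yl i j) A B) ≤
      ENNReal.ofReal (7 * Fintype.card α / 10) →
    W (ENNReal.ofReal (1 / (2 * Fintype.card α - 3)))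
      {v | v.IsChain (fun x y => y ≠ nv x) ∧
        (∀ x ∈ v, x = gi ∨ x = gj ∨ (x.1 ≠ i ∧ x.1 ≠ j)) ∧ R3 i j fl ll A B v} ≤
      ENNReal.ofReal (36 * Fintype.card α)

/-- Numerical bounds for languages with a forbidden rectangle. -/
def StmtL : Prop :=
  ∀ (α : Type) [Fintype α] [DecidableEq α] (Λ A B : Finset (α × Bool)),
    100 ≤ Fintype.card α → (∀ x ∈ Λ, nv x ∈ Λ) → A ⊆ Λ → B ⊆ Λ → Disjoint A B →
    (Λ \ (A ∪ B)).card ≤ 1 →
    (Λ.card = 2 * Fintype.card α - 4 → 1 ≤ A.card → 1 ≤ B.card →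
      W (ENNReal.ofReal (1 / (2 * Fintype.card α - 3))) (Lang Λ A B) ≤
        ENNReal.ofReal (7 * Fintype.card α / 10)) ∧
    (Λ.card = 2 * Fintype.card α - 2 → 1 ≤ A.card → 1 ≤ B.card →
      W (ENNReal.ofReal (1 / (2 * Fintype.card α - 3))) (Lang Λ A B) ≤
        ENNReal.ofReal (21 * Fintype.card α / 10)) ∧
    (Λ.card = 2 * Fintype.card α - 2 → 2 ≤ A.card → 2 ≤ B.card →
      W (ENNReal.ofReal (1 / (2 * Fintype.card α - 3))) (Lang Λ A B) ≤
        ENNReal.ofReal (11 * Fintype.card α / 10)) ∧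
    (Λ.card = 2 * Fintype.card α → 3 ≤ A.card → 3 ≤ B.card →
      W (ENNReal.ofReal (1 / (2 * Fintype.card α - 3))) (Lang Λ A B) < ⊤)

/-- Lower bound. -/
def StmtLow : Prop :=
  ∀ (r n : ℕ), 2 ≤ r → (2 * r - 3) ^ n ≤
    {u : FreeGroup (Fin r) | u.norm = n + 1 ∧
      ∃ f : FreeGroup (Fin r) ≃* FreeGroup (Fin r), ∀ x ∈ (f u).toWord, x.2 = true}.ncard

end Pool.Agent.Helper35.PX
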