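import Mathlib
import Pool.Agent.Helper35.PX.Goals

/-!
MP_bec853_al, exactness: the third restriction.
-/

namespace Pool.Agent.Helper35.PX

open FreeGroup Pool.Agent.Helper35.PP

section

variable {α : Type} [DecidableEq α]

/-- the image word of a letter -/
def wd (θ : FreeGroup α ≃* FreeGroup α) (x : α × Bool) : List (α × Bool) := (θ (el x)).toWord

lemma wd_ne_nil (θ : FreeGroup α ≃* FreeGroup α) (x : α × Bool) : wd θ x ≠ [] := by
  intro h
  have h1 : θ (el x) = 1 := toWord_eq_nil_iff.1 h
  exact el_ne_one x (θ.injective (h1.trans (_root_.map_one θ).symm))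

/-- first letter of the image word -/
def fl (θ : FreeGroup α ≃* FreeGroup α) (x : α × Bool) : α × Bool :=
  (wd θ x).head (wd_ne_nil θ x)

/-- last letter of the image word -/
def ll (θ : FreeGroup α ≃* FreeGroup α) (x : α × Bool) : α × Bool :=
  (wd θ x).getLast (wd_ne_nil θ x)

variable {θ : FreeGroup α ≃* FreeGroup α}

lemma wd_nv (x : α × Bool) : wd θ (nv x) = FreeGroup.invRev (wd θ x) := by
  unfold wd
  rw [el_nv, _root_.map_inv, toWord_inv]

lemma hd_wd (x : α × Bool) : hd (θ (el x)) = some (fl θ x) := by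
  unfold hd fl
  exact List.head?_eq_some_head _

lemma last_wd (x : α × Bool) : (θ (el x)).toWord.getLast? = some (ll θ x) :=
  List.getLast?_eq_some_getLast _

lemma fl_nv (x : α × Bool) : fl θ (nv x) = nv (ll θ x) := by
  have h1 := hd_wd (θ := θ) (nv x)
  rw [el_nv, _root_.map_inv, hd_inv, last_wd] at h1
  simpa using h1.symm

lemma ll_nv (x : α × Bool) : ll θ (nv x) = nv (fl θ x) := by
  have h1 := fl_nv (θ := θ) (nv x)
  rw [nv_nv] at h1
  rw [h1, nv_nv]

/-- image words of a word without cancellation -/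
lemma toWord_img (s : List (α × Bool)) (h : s.IsChain (fun x y => ll θ x ≠ nv (fl θ y))) :
    (θ (FreeGroup.mk s)).toWord = s.flatMap (wd θ) := by
  induction s with
  | nil =>
    have : FreeGroup.mk ([] : List (α × Bool)) = 1 := rfl
    rw [this, _root_.map_one]
    rfl
  | cons x s ih =>
    have e : FreeGroup.mk (x :: s) = el x * FreeGroup.mk s := by
      rw [el, FreeGroup.mul_mk]
      rfl
    rw [e, _root_.map_mul, toWord_mul_nc, List.flatMap_cons, ih h.tail]
    · rfl
    · intro z hz
      rw [hd_inv, last_wd] at hz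
      simp only [Option.map_some, Option.some.injEq] at hz
      subst hz
      unfold hd
      rw [ih h.tail]
      cases s with
      | nil => simp
      | cons y s =>
        rw [List.isChain_cons_cons] at h
        rw [List.flatMap_cons]
        have h2 : (wd θ y ++ s.flatMap (wd θ)).head? = some (fl θ y) := by
          rw [List.head?_append_of_ne_nil _ (wd_ne_nil θ y)]
          exact List.head?_eq_some_head _
        rw [h2]
        intro h3
        injection h3 with h3
        apply h.1
        rw [h3, nv_nv]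

lemma length_flatMap_ge {s : List (α × Bool)} {i j : α} (hij : i ≠ j)
    (hi : ∃ t ∈ s, t.1 = i) (hj : ∃ t ∈ s, t.1 = j) :
    (θ (FreeGroup.of i)).norm + (θ (FreeGroup.of j)).norm ≤ (s.flatMap (wd θ)).length := by
  have hlen : ∀ (x : α × Bool), (wd θ x).length = (θ (FreeGroup.of x.1)).norm := by
    rintro ⟨a, b⟩
    cases b
    · have : wd θ (a, false) = FreeGroup.invRev (wd θ (a, true)) := wd_nv (a, true)
      rw [this, FreeGroup.invRev_length]
      rfl
    · rfl
  obtain ⟨t, ht, rfl⟩ := hi
  obtain ⟨t', ht', rfl⟩ := hj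
  have hne : t' ≠ t := fun h => hij (by rw [h])
  have h1 : s.Perm (t :: s.erase t) := List.perm_cons_erase ht
  have h2 : t' ∈ s.erase t := (List.mem_erase_of_ne hne).2 ht'
  have h3 : (s.erase t).Perm (t' :: (s.erase t).erase t') := List.perm_cons_erase h2
  have h4 : s.Perm (t :: t' :: (s.erase t).erase t') := h1.trans (h3.cons t)
  have h5 := (h4.flatMap_right (wd θ)).length_eq
  rw [h5, List.flatMap_cons, List.flatMap_cons, List.length_append, List.length_append,
    hlen, hlen]
  omega

/-- the first letter survives a short cancellation -/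
lemma hd_mul_of_lt {g h : FreeGroup α} (hlt : h.norm < (g * h).norm + g.norm) :
    hd (g * h) = hd g := by
  obtain ⟨c, h1, h2⟩ := toWord_mul_cancel g h
  have h3 := congrArg List.length h1
  rw [List.length_append, List.length_take, List.length_drop] at h3
  unfold FreeGroup.norm at hlt
  have hc : c < g.toWord.length := by
    by_contra hcon
    have hcg : c = g.toWord.length := le_antisymm h2 (not_lt.1 hcon)
    by_cases hch : c ≤ h.toWord.length
    · omega
    · have h0 : (g * h).toWord = [] := by
        apply List.length_eq_zero_iff.1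
        omega
      have h4 : g * h = 1 := toWord_eq_nil_iff.1 h0
      have h5 : h = g⁻¹ := eq_inv_of_mul_eq_one_right h4
      have h6 : h.norm = g.norm := by rw [h5, FreeGroup.norm_inv_eq]
      unfold FreeGroup.norm at h6
      omega
  unfold hd
  rw [h1]
  cases hg : g.toWord with
  | nil => rw [hg] at hc; simp at hc
  | cons a L =>
    rw [hg] at hc
    have : (a :: L).length - c = ((a :: L).length - c - 1) + 1 := by omega
    rw [this, List.take_succ_cons]
    rfl

end

/-- **Third restriction.** -/
theorem third (hB : StmtB) (hC : StmtBCC) {α : Type} [Fintype α] [DecidableEq α]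
    {c : List (α × Bool)} (hc : FreeGroup.IsCyclicallyReduced c) {E : Set (FreeGroup α)}
    (hE : Good E) (hu : PosLine E (FreeGroup.mk c)) {i j z : α} (hij : i ≠ j) (hzi : z ≠ i)
    (hzj : z ≠ j) (hcut : AxisCut z E) :
    ∃ fl ll : (α × Bool) → (α × Bool), ∃ A B : Finset (α × Bool), A ⊆ Yl i j ∧ B ⊆ Yl i j ∧
      Disjoint A B ∧ (Yl i j \ (A ∪ B)).card ≤ 1 ∧ 1 ≤ A.card ∧ 1 ≤ B.card ∧
      R3 i j fl ll A B c := by
  classical
  set V : Finset α := Finset.univ.filter (fun a => a ≠ i ∧ a ≠ j) with hV
  have hmem : ∀ a, a ∈ V ↔ a ≠ i ∧ a ≠ j := fun a => by simp [hV]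
  obtain ⟨f, hf, g, A0, B0, hl, ⟨xa, hxa, hxa'⟩, ⟨xb, hxb, hxb'⟩⟩ :=
    hB α V E z ((hmem z).2 ⟨hzi, hzj⟩) hE hcut
  set θ := f.symm with hθ
  have hθV : ∀ y ∈ V, θ (FreeGroup.of y) = FreeGroup.of y := by
    intro y hy
    rw [hθ, MulEquiv.symm_apply_eq, hf y hy]
  have hθel : ∀ x : α × Bool, x.1 ∈ V → θ (el x) = el x := by
    rintro ⟨a, b⟩ ha
    cases b
    · have : el (a, false) = (FreeGroup.of a)⁻¹ := by
        simp [el, FreeGroup.of, FreeGroup.inv_mk, FreeGroup.invRev]
      rw [this, _root_.map_inv, hθV a ha]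
    · exact hθV a ha
  have hwV : ∀ x : α × Bool, x.1 ∈ V → wd θ x = [x] := by
    intro x hx
    unfold wd
    rw [hθel x hx, toWord_el]
  have hflV : ∀ x : α × Bool, x.1 ∈ V → fl θ x = x := by
    intro x hx
    have h1 := hd_wd (θ := θ) x
    rw [hθel x hx, hd_el] at h1
    exact (Option.some.inj h1).symm
  have hllV : ∀ x : α × Bool, x.1 ∈ V → ll θ x = x := by
    intro x hx
    have h1 := last_wd (θ := θ) x
    rw [hθel x hx, toWord_el] at h1
    simpa using h1.symm
  -- the sum of the norms
  have hsum : ∑ x, (θ (FreeGroup.of x)).norm =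
      (θ (FreeGroup.of i)).norm + (θ (FreeGroup.of j)).norm + (Fintype.card α - 2) := by
    have h1 : (Finset.univ : Finset α) = insert i (insert j V) := by
      ext a
      simp only [Finset.mem_univ, Finset.mem_insert, hmem, true_iff]
      tauto
    have hiV : i ∉ insert j V := by
      rw [Finset.mem_insert, hmem]
      tauto
    have hjV : j ∉ V := by
      rw [hmem]
      tauto
    have hcard : Fintype.card α = V.card + 2 := by
      rw [← Finset.card_univ, h1, Finset.card_insert_of_notMem hiV,
        Finset.card_insert_of_notMem hjV]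
    rw [h1, Finset.sum_insert hiV, Finset.sum_insert hjV, hcard]
    have h2 : ∑ x ∈ V, (θ (FreeGroup.of x)).norm = V.card := by
      rw [Finset.card_eq_sum_ones]
      apply Finset.sum_congr rfl
      intro y hy
      rw [hθV y hy]
      exact FreeGroup.norm_of y
    rw [h2]
    omega
  have hcard2 : 2 ≤ Fintype.card α := by
    have : ({i, j} : Finset α).card ≤ Fintype.card α := Finset.card_le_univ _
    rwa [Finset.card_pair hij] at this
  -- chains without cancellation
  have hchain : ∀ s : List (α × Bool), FreeGroup.IsReduced s → s.IsChain (GP i j (fl θ) (ll θ)) →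
      s.IsChain (fun x y => ll θ x ≠ nv (fl θ y)) := by
    intro s hs1 hs2
    have hs3 := chain_of_reduced hs1
    have h12 := List.isChain_iff_forall_rel_of_append_cons_cons.1 hs2
    have h13 := List.isChain_iff_forall_rel_of_append_cons_cons.1 hs3
    rw [List.isChain_iff_forall_rel_of_append_cons_cons]
    intro x y l r h
    obtain ⟨g1, g2, g3⟩ := h12 h
    have g4 := h13 h
    by_cases hx : x.1 = i ∨ x.1 = j
    · have hy : ¬ (y.1 = i ∨ y.1 = j) := fun hy => g1 ⟨hx, hy⟩
      have hyV : y.1 ∈ V := (hmem _).2 (not_or.1 hy)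
      rw [hflV y hyV]
      exact fun h => g2 hx h.symm
    · have hxV : x.1 ∈ V := (hmem _).2 (not_or.1 hx)
      rw [hllV x hxV]
      by_cases hy : y.1 = i ∨ y.1 = j
      · intro h5
        apply g3 hy
        rw [h5, nv_nv]
      · have hyV : y.1 ∈ V := (hmem _).2 (not_or.1 hy)
        rw [hflV y hyV]
        intro h5
        apply g4
        rw [h5, nv_nv]
  -- the head of the image of a long product
  have hhead : ∀ (y : α × Bool) (b t : List (α × Bool)), y.1 ∈ V →
      FreeGroup.IsReduced ((y :: b) ++ t) →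
      (y :: b).IsChain (fun x y => ll θ x ≠ nv (fl θ y)) →
      (∃ t ∈ b, t.1 = i) → (∃ t ∈ b, t.1 = j) →
      hd (θ (FreeGroup.mk ((y :: b) ++ t))) = some y := by
    intro y b t hy hred hch hi hj
    have r1 : FreeGroup.IsReduced (y :: b) := red_of hred ⟨[], t, by simp⟩
    have r2 : FreeGroup.IsReduced t := red_of hred ⟨y :: b, [], by simp⟩
    have hn : (FreeGroup.mk (y :: b) * FreeGroup.mk t).norm =
        (FreeGroup.mk (y :: b)).norm + (FreeGroup.mk t).norm := by
      unfold FreeGroup.norm
      rw [FreeGroup.mul_mk, toWord_mk, hred.reduce_eq, toWord_mk, toWord_mk, r1.reduce_eq,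
        r2.reduce_eq, List.length_append]
    have hbcc := hC α θ _ _ hn
    have himg := toWord_img _ hch
    have hlen : (θ (FreeGroup.of i)).norm + (θ (FreeGroup.of j)).norm + 1 ≤
        (θ (FreeGroup.mk (y :: b))).norm := by
      unfold FreeGroup.norm at *
      rw [himg, List.flatMap_cons, List.length_append, hwV y hy, List.length_singleton]
      have := length_flatMap_ge (θ := θ) hij hi hj
      unfold FreeGroup.norm at this
      omega
    rw [← FreeGroup.mul_mk, _root_.map_mul, hd_mul_of_lt]
    · unfold hd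
      rw [himg, List.flatMap_cons, hwV y hy]
      rfl
    · rw [← _root_.map_mul]
      rw [hsum] at hbcc
      omega
  refine ⟨fl θ, ll θ, A0.filter (fun x => x.1 ≠ i ∧ x.1 ≠ j),
    B0.filter (fun x => x.1 ≠ i ∧ x.1 ≠ j), ?_, ?_, ?_, ?_, ?_, ?_, ?_⟩
  · intro x hx
    exact Finset.mem_filter.2 ⟨Finset.mem_univ _, (Finset.mem_filter.1 hx).2⟩
  · intro x hx
    exact Finset.mem_filter.2 ⟨Finset.mem_univ _, (Finset.mem_filter.1 hx).2⟩
  · exact Finset.disjoint_filter_filter hl.disj
  · rw [Finset.card_le_one]
    intro a ha b hb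
    simp only [Yl, Finset.mem_sdiff, Finset.mem_filter, Finset.mem_univ, true_and,
      Finset.mem_union, not_or, not_and] at ha hb
    apply hl.few a b
    · exact fun h => ha.2.1 h ha.1.1 ha.1.2
    · exact fun h => ha.2.2 h ha.1.1 ha.1.2
    · exact fun h => hb.2.1 h hb.1.1 hb.1.2
    · exact fun h => hb.2.2 h hb.1.1 hb.1.2
  · exact Finset.card_pos.2 ⟨xa, Finset.mem_filter.2 ⟨hxa, (hmem _).1 hxa'⟩⟩
  · exact Finset.card_pos.2 ⟨xb, Finset.mem_filter.2 ⟨hxb, (hmem _).1 hxb'⟩⟩
  · intro l a x y b r hcv hch hxi hxj hyi hyj hai haj hbi hbj hxA hyB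
    have hxV : x.1 ∈ V := (hmem _).2 ⟨hxi, hxj⟩
    have hyV : y.1 ∈ V := (hmem _).2 ⟨hyi, hyj⟩
    have hxA0 := (Finset.mem_filter.1 hxA).1
    have hyB0 := (Finset.mem_filter.1 hyB).1
    -- rotation
    have e : c = (l ++ a ++ [x]) ++ (y :: b ++ r) := by
      rw [hcv]; simp
    have hc' : FreeGroup.IsCyclicallyReduced ((y :: b ++ r) ++ (l ++ a ++ [x])) := by
      rw [e] at hc
      exact rotate_cyc hc
    have hm := mk_rotate (l ++ a ++ [x]) (y :: b ++ r)
    rw [← e] at hm
    have hsred : FreeGroup.IsReduced (a ++ x :: y :: b) :=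
      red_of hc.isReduced ⟨l, r, by rw [hcv]⟩
    refine restriction (t := FreeGroup.mk (l ++ a ++ [x])) hu f hl hxA0 hyB0 hm ?_ ?_
    · intro n
      have hred := (hc'.flatten_replicate (n + 1)).isReduced
      rw [mk_pow_eq, List.replicate_succ, List.flatten_cons]
      rw [List.replicate_succ, List.flatten_cons] at hred
      have e2 : ((y :: b ++ r) ++ (l ++ a ++ [x])) ++ (List.replicate n
          ((y :: b ++ r) ++ (l ++ a ++ [x]))).flatten = (y :: b) ++ (r ++ (l ++ a ++ [x]) ++
          (List.replicate n ((y :: b ++ r) ++ (l ++ a ++ [x]))).flatten) := by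
        simp
      rw [e2] at hred ⊢
      apply hhead y b _ hyV hred _ hbi hbj
      apply hchain _ (red_of hred ⟨[], _, by rw [List.nil_append]⟩)
      exact (hch.right_of_append).tail
    · intro n
      have e1 : ((FreeGroup.mk ((y :: b ++ r) ++ (l ++ a ++ [x]))) ^ (n + 1))⁻¹ =
          (FreeGroup.mk (FreeGroup.invRev ((y :: b ++ r) ++ (l ++ a ++ [x])))) ^ (n + 1) := by
        rw [← FreeGroup.inv_mk, inv_pow]
      have hinv := invRev_cyc hc'
      have e3 : FreeGroup.invRev ((y :: b ++ r) ++ (l ++ a ++ [x])) =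
          (nv x :: FreeGroup.invRev a) ++ (FreeGroup.invRev l ++
            FreeGroup.invRev (y :: b ++ r)) := by
        rw [FreeGroup.invRev_append, FreeGroup.invRev_append, FreeGroup.invRev_append]
        simp [FreeGroup.invRev, nv]
      have hred := (hinv.flatten_replicate (n + 1)).isReduced
      rw [e1, mk_pow_eq, List.replicate_succ, List.flatten_cons]
      rw [List.replicate_succ, List.flatten_cons] at hred
      rw [e3] at hred ⊢
      rw [List.append_assoc] at hred ⊢
      have hinvmem : ∀ k : α, (∃ t ∈ a, t.1 = k) → ∃ t ∈ FreeGroup.invRev a, t.1 = k := by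
        rintro k ⟨t, ht, hk⟩
        refine ⟨nv t, ?_, hk⟩
        unfold FreeGroup.invRev
        rw [List.mem_reverse, List.mem_map]
        exact ⟨t, ht, rfl⟩
      apply hhead (nv x) (FreeGroup.invRev a) _ hxV hred _ (hinvmem i hai) (hinvmem j haj)
      -- the chain for the reversed word
      have h1 : (a ++ [x]).IsChain (fun x y => ll θ x ≠ nv (fl θ y)) := by
        apply hchain
        · exact red_of hsred ⟨[], y :: b, by simp⟩
        · have : a ++ x :: y :: b = (a ++ [x]) ++ (y :: b) := by simp
          rw [this] at hch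
          exact hch.left_of_append
      have h2 : nv x :: FreeGroup.invRev a = ((a ++ [x]).map nv).reverse := by
        simp [FreeGroup.invRev, nv]
      rw [h2, List.isChain_reverse, List.isChain_map]
      apply h1.imp
      intro p q hpq h3
      apply hpq
      rw [ll_nv, fl_nv, nv_nv] at h3
      exact h3.symm

end Pool.Agent.Helper35.PX
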