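import Mathlib
import Pool.Agent.Helper35.PX.Third

/-!
MP_bec853_al, exactness: tools for the assembly.
-/

namespace Pool.Agent.Helper35.PX

open FreeGroup Pool.Agent.Helper35.PP
open scoped ENNReal

section general

variable {β : Type}

lemma W_mono_z {z z' : ℝ≥0∞} (h : z ≤ z') (S : Set (List β)) : W z S ≤ W z' S := by
  unfold W
  apply ENNReal.tsum_le_tsum
  intro w
  gcongr

lemma FactorClosed.and {p q : List β → Prop} (hp : FactorClosed {v | p v})
    (hq : FactorClosed {v | q v}) : FactorClosed {v | p v ∧ q v} :=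
  fun a b c h => ⟨hp a b c h.1, hq a b c h.2⟩

lemma FactorClosed.and' {S : Set (List β)} {q : List β → Prop} (hp : FactorClosed S)
    (hq : FactorClosed {v | q v}) : FactorClosed {v | v ∈ S ∧ q v} :=
  fun a b c h => ⟨hp a b c h.1, hq a b c h.2⟩

lemma factorClosed_notMem (x : β) : FactorClosed {v : List β | x ∉ v} := by
  intro a b c h hx
  apply h
  simp [hx]

lemma factorClosed_all (p : β → Prop) : FactorClosed {v : List β | ∀ x ∈ v, p x} := by
  intro a b c h x hx
  exact h x (by simp [hx])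

lemma factorClosed_isChain (R : β → β → Prop) : FactorClosed {v : List β | v.IsChain R} := by
  intro a b c h
  exact (List.IsChain.left_of_append h).right_of_append

/-- splitting at a letter -/
lemma W_split {z T K : ℝ≥0∞} {S : Set (List β)} (g : β) (hS : FactorClosed S)
    (hT : W z {v | v ∈ S ∧ g ∉ v} ≤ T) (hK : T + T * (z * K) ≤ K) : W z S ≤ K := by
  classical
  apply W_le_of_trunc
  intro n
  induction n with
  | zero =>
    refine le_trans ?_ (le_trans le_self_add hK)
    refine le_trans (W_mono ?_) hT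
    rintro v ⟨hv, hl⟩
    have hl' : v.length ≤ 0 := hl
    have : v = [] := List.length_eq_zero_iff.1 (by omega)
    subst this
    exact ⟨hv, by simp⟩
  | succ n ih =>
    have hsub : S ∩ {w | w.length ≤ n + 1} ⊆ {v | v ∈ S ∧ g ∉ v} ∪
        app {v | v ∈ S ∧ g ∉ v} (app {[g]} (S ∩ {w | w.length ≤ n})) := by
      rintro v ⟨hv, hl⟩
      by_cases hg : g ∈ v
      · right
        obtain ⟨a, b, hab, hga⟩ : ∃ a b, v = a ++ g :: b ∧ g ∉ a := by
          obtain ⟨a, b, h1, h2⟩ := List.eq_append_cons_of_mem hg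
          exact ⟨a, b, h1, h2⟩
        refine ⟨a, ⟨?_, hga⟩, g :: b, ⟨[g], rfl, b, ⟨?_, ?_⟩, rfl⟩, hab⟩
        · apply hS [] a (g :: b)
          rw [List.nil_append, ← hab]
          exact hv
        · apply hS (a ++ [g]) b []
          rw [List.append_nil, List.append_assoc, List.singleton_append, ← hab]
          exact hv
        · have hl' : v.length ≤ n + 1 := hl
          rw [hab, List.length_append, List.length_cons] at hl'
          show b.length ≤ n
          omega
      · left
        exact ⟨hv, hg⟩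
    refine (W_mono hsub).trans ((W_union_le _ _ _).trans (le_trans ?_ hK))
    refine add_le_add hT ((W_app_le _ _ _).trans (mul_le_mul' hT ?_))
    refine (W_app_le _ _ _).trans (mul_le_mul' ?_ ih)
    rw [W_singleton]
    simp

lemma W_split_real {z T : ℝ} (hz : 0 ≤ z) (hT0 : 0 ≤ T) (hlt : z * T < 1) {S : Set (List β)}
    (g : β) (hS : FactorClosed S)
    (hT : W (ENNReal.ofReal z) {v | v ∈ S ∧ g ∉ v} ≤ ENNReal.ofReal T) :
    W (ENNReal.ofReal z) S ≤ ENNReal.ofReal (T / (1 - z * T)) := by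
  have h1 : 0 < 1 - z * T := by linarith
  apply W_split g hS hT
  have hK : 0 ≤ T / (1 - z * T) := by positivity
  rw [← ENNReal.ofReal_mul hz, ← ENNReal.ofReal_mul hT0,
    ← ENNReal.ofReal_add hT0 (by positivity)]
  apply ENNReal.ofReal_le_ofReal
  apply le_of_eq
  have h3 : T / (1 - z * T) * (1 - z * T) = T := div_mul_cancel₀ T h1.ne'
  generalize T / (1 - z * T) = q at h3 ⊢
  linear_combination -h3

/-- the rule for a rare letter: it is followed (`t = true`) or preceded (`t = false`) by a letter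
of `X` -/
def Ru (t : Bool) (ρ : β) (X : Finset β) (v : List β) : Prop :=
  ∀ a y b, v = (if t then a ++ ρ :: y :: b else a ++ y :: ρ :: b) → y ∈ X

lemma factorClosed_Ru (t : Bool) (ρ : β) (X : Finset β) : FactorClosed {v | Ru t ρ X v} := by
  intro a b c h p y q he
  cases t
  · apply h (a ++ p) y (q ++ c)
    simp only [Bool.false_eq_true, if_false] at he ⊢
    rw [he]
    simp
  · apply h (a ++ p) y (q ++ c)
    simp only [if_true] at he ⊢
    rw [he]
    simp

lemma elim (hF : StmtElimF) (hP : StmtElimP) (t : Bool) {z w0 w1 : ℝ} {S : Set (List β)} (ρ : β)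
    (X : Finset β) (hz : 0 ≤ z) (hz1 : z < 1) (hS : FactorClosed S)
    (hr : ∀ v ∈ S, Ru t ρ X v) (hw0 : 0 ≤ w0)
    (hW : W (ENNReal.ofReal z) {v | v ∈ S ∧ ρ ∉ v} ≤ ENNReal.ofReal w0) {m : ℕ}
    (hm : X.card ≤ m) (hlt : (m : ℝ) * z ^ 2 / (1 - z) * w0 < 1)
    (hw1 : w0 ≤ w1 * ((1 - z) * (1 - (m : ℝ) * z ^ 2 / (1 - z) * w0))) :
    W (ENNReal.ofReal z) S ≤ ENNReal.ofReal w1 := by
  have h1z : 0 < 1 - z := by linarith
  have hle : (X.card : ℝ) * z ^ 2 / (1 - z) * w0 ≤ (m : ℝ) * z ^ 2 / (1 - z) * w0 := by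
    have : (X.card : ℝ) ≤ m := by exact_mod_cast hm
    gcongr
  have hlt' := lt_of_le_of_lt hle hlt
  have key : W (ENNReal.ofReal z) S ≤
      ENNReal.ofReal (w0 / ((1 - z) * (1 - (X.card : ℝ) * z ^ 2 / (1 - z) * w0))) := by
    cases t
    · apply hP β z w0 S ρ X hz hz1 hS _ hw0 hW hlt'
      intro a y b h
      exact hr _ h a y b (by simp)
    · apply hF β z w0 S ρ X hz hz1 hS _ hw0 hW hlt'
      intro a y b h
      exact hr _ h a y b (by simp)
  refine key.trans (ENNReal.ofReal_le_ofReal ?_)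
  have hpos : 0 < (1 - z) * (1 - (m : ℝ) * z ^ 2 / (1 - z) * w0) :=
    mul_pos h1z (by linarith)
  have hpos' : (1 - z) * (1 - (m : ℝ) * z ^ 2 / (1 - z) * w0) ≤
      (1 - z) * (1 - (X.card : ℝ) * z ^ 2 / (1 - z) * w0) := by
    apply mul_le_mul_of_nonneg_left _ h1z.le
    linarith
  calc w0 / ((1 - z) * (1 - (X.card : ℝ) * z ^ 2 / (1 - z) * w0))
      ≤ w0 / ((1 - z) * (1 - (m : ℝ) * z ^ 2 / (1 - z) * w0)) := by gcongr
    _ ≤ w1 := by rw [div_le_iff₀ hpos]; exact hw1

end general

section letters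

variable {α : Type}

lemma factorClosed_NB (i : α) (bad : (α × Bool) → (α × Bool) → Prop) :
    FactorClosed {v | NB i bad v} := by
  intro a b c h p x y q he hx hy
  apply h (a ++ p) x y (q ++ c) _ hx hy
  rw [he]
  simp

lemma factorClosed_R3 (i j : α) (fl ll : (α × Bool) → (α × Bool)) (A B : Finset (α × Bool)) :
    FactorClosed {v | R3 i j fl ll A B v} := by
  intro a b c h l p x y q r he
  apply h (a ++ l) p x y q (r ++ c)
  rw [he]
  simp

lemma factorClosed_red : FactorClosed {v : List (α × Bool) | v.IsChain (fun x y => y ≠ nv x)} :=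
  factorClosed_isChain _

end letters

end Pool.Agent.Helper35.PX
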