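import Mathlib
import Pool.Agent.Helper35.PX.Tools

/-!
MP_bec853_al, exactness: the property of potentially positive elements which is used, and the
rules satisfied by cyclically reduced words.
-/

namespace Pool.Agent.Helper35.PX

open FreeGroup Filter Pool.Agent.Helper35.PP

section

variable {α : Type} [DecidableEq α]

/-- every generator has an axis which is cut by a good set along which `u` moves forward -/
def AdmX (u : FreeGroup α) : Prop :=
  ∀ z : α, ∃ E : Set (FreeGroup α), Good E ∧ PosLine E u ∧ AxisCut z E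

lemma AxisCut.cutsZ {i z : α} (hz : z ≠ i) {E : Set (FreeGroup α)} (h : AxisCut z E) :
    CutsZ i E := by
  have hzZ : of z ∈ ZS i := by
    have := el_mem_ZS (i := i) (x := (z, true)) hz
    exact this
  obtain ⟨g, h1, h2⟩ := h
  have hinj : Function.Injective (fun n : ℤ => (of z : FreeGroup α) ^ n) := by
    rw [injective_zpow_iff_not_isOfFinOrder]
    exact not_isOfFinOrder_of_isMulTorsionFree (FreeGroup.of_ne_one z)
  refine ⟨g, ?_, ?_⟩
  · refine (h1.image hinj.injOn).mono ?_
    rintro _ ⟨n, hn, rfl⟩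
    exact ⟨(ZS i).zpow_mem hzZ n, hn⟩
  · refine (h2.image hinj.injOn).mono ?_
    rintro _ ⟨n, hn, rfl⟩
    exact ⟨(ZS i).zpow_mem hzZ n, hn⟩

lemma AxisCut.infinite {z : α} {E : Set (FreeGroup α)} (h : AxisCut z E) :
    E.Infinite ∧ (Eᶜ).Infinite := by
  obtain ⟨g, h1, h2⟩ := h
  have hinj : Function.Injective (fun n : ℤ => g * (of z : FreeGroup α) ^ n) := by
    intro a b hab
    have h3 : Function.Injective (fun n : ℤ => (of z : FreeGroup α) ^ n) := by
      rw [injective_zpow_iff_not_isOfFinOrder]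
      exact not_isOfFinOrder_of_isMulTorsionFree (FreeGroup.of_ne_one z)
    exact h3 (mul_left_cancel hab)
  refine ⟨?_, ?_⟩
  · refine (h1.image hinj.injOn).mono ?_
    rintro _ ⟨n, hn, rfl⟩
    exact hn
  · refine (h2.image hinj.injOn).mono ?_
    rintro _ ⟨n, hn, rfl⟩
    exact hn

lemma exists_axisCut (z : α) (f : FreeGroup α ≃* FreeGroup α) :
    ∃ j, AxisCut z (f ⁻¹' Cn (j, true)) := by
  have hw : f (of z) ≠ 1 := by
    intro h
    have := f.injective (h.trans (_root_.map_one f).symm)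
    exact FreeGroup.of_ne_one z this
  obtain ⟨g, x, h1, h2⟩ := exists_axis_cut hw
  have inj1 : Function.Injective (fun n : ℕ => ((n + 1 : ℕ) : ℤ)) := by
    intro a b hab
    simpa using hab
  have inj2 : Function.Injective (fun n : ℕ => -((n + 1 : ℕ) : ℤ)) := by
    intro a b hab
    simpa using hab
  obtain ⟨j, b⟩ := x
  cases b
  · refine ⟨j, f.symm (el (j, true) * g), ?_, ?_⟩
    · apply Set.infinite_of_injective_forall_mem inj2
      intro n
      show hd (f _) = _
      rw [_root_.map_mul, MulEquiv.apply_symm_apply, zpow_neg, zpow_natCast, _root_.map_inv,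
        _root_.map_pow, mul_assoc]
      apply hd_el_mul_of
      exact h2 n
    · apply Set.infinite_of_injective_forall_mem inj1
      intro n
      show ¬ (hd (f _) = _)
      rw [_root_.map_mul, MulEquiv.apply_symm_apply, zpow_natCast, _root_.map_pow, mul_assoc,
        hd_ne_iff, not_not]
      exact h1 n
  · refine ⟨j, f.symm g, ?_, ?_⟩
    · apply Set.infinite_of_injective_forall_mem inj1
      intro n
      show hd (f _) = _
      rw [_root_.map_mul, MulEquiv.apply_symm_apply, zpow_natCast, _root_.map_pow]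
      exact h1 n
    · apply Set.infinite_of_injective_forall_mem inj2
      intro n
      show ¬ (hd (f _) = _)
      rw [_root_.map_mul, MulEquiv.apply_symm_apply, zpow_neg, zpow_natCast, _root_.map_inv,
        _root_.map_pow]
      exact h2 n

lemma admX_of_pos [Fintype α] (f : FreeGroup α ≃* FreeGroup α) {u : FreeGroup α}
    (h : IsPos (f u)) : AdmX u := by
  intro z
  obtain ⟨j, hj⟩ := exists_axisCut z f
  exact ⟨_, (good_Cn (j, true)).preimage f, (posLine_Cn h j).preimage f, hj⟩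

lemma AdmX.conj {u : FreeGroup α} (h : AdmX u) (s : FreeGroup α) : AdmX (s⁻¹ * u * s) := by
  intro z
  obtain ⟨E, h1, h2, h3⟩ := h z
  exact ⟨E, h1, h2.conj s, h3⟩

/-! ### rules from leaves -/

/-- the letters which may follow `nv a` -/
def nxt [Fintype α] (B : Finset (α × Bool)) (a : α × Bool) : Finset (α × Bool) :=
  (Finset.univ \ B).erase a

/-- the letters which may precede `b` -/
def prv [Fintype α] (A : Finset (α × Bool)) (b : α × Bool) : Finset (α × Bool) :=
  ((Finset.univ \ A).erase b).image nv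

lemma ruF [Fintype α] {c : List (α × Bool)} (A B : Finset (α × Bool)) (hc : c ∈ Lang Finset.univ A B)
    {a : α × Bool} (ha : a ∈ A) : Ru true (nv a) (nxt B a) c := by
  intro l y r he
  simp only [if_true] at he
  have := (List.isChain_iff_forall_rel_of_append_cons_cons.1 hc.2) he
  obtain ⟨h1, h2⟩ := this
  rw [nv_nv] at h1 h2
  unfold nxt
  rw [Finset.mem_erase, Finset.mem_sdiff]
  exact ⟨h1, Finset.mem_univ _, fun h => h2 ⟨ha, h⟩⟩

lemma ruP [Fintype α] {c : List (α × Bool)} (A B : Finset (α × Bool)) (hc : c ∈ Lang Finset.univ A B)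
    {b : α × Bool} (hb : b ∈ B) : Ru false b (prv A b) c := by
  intro l y r he
  simp only [Bool.false_eq_true, if_false] at he
  have := (List.isChain_iff_forall_rel_of_append_cons_cons.1 hc.2) he
  obtain ⟨h1, h2⟩ := this
  unfold prv
  rw [Finset.mem_image]
  refine ⟨nv y, ?_, nv_nv y⟩
  rw [Finset.mem_erase, Finset.mem_sdiff]
  exact ⟨h1.symm, Finset.mem_univ _, fun h => h2 ⟨h, hb⟩⟩

lemma card_nxt [Fintype α] {A B : Finset (α × Bool)} (hd : Disjoint A B)
    (hm : (Finset.univ \ (A ∪ B)).card ≤ 1) {a : α × Bool} (ha : a ∈ A) :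
    (nxt B a).card ≤ A.card := by
  unfold nxt
  have h1 : Finset.univ \ B ⊆ A ∪ (Finset.univ \ (A ∪ B)) := by
    intro x hx
    simp only [Finset.mem_sdiff, Finset.mem_univ, true_and, Finset.mem_union, not_or] at hx ⊢
    by_cases h : x ∈ A
    · exact Or.inl h
    · exact Or.inr ⟨h, hx⟩
  have h2 : a ∈ Finset.univ \ B := by
    rw [Finset.mem_sdiff]
    exact ⟨Finset.mem_univ _, Finset.disjoint_left.1 hd ha⟩
  rw [Finset.card_erase_of_mem h2]
  have h3 := Finset.card_le_card h1
  have h4 := Finset.card_union_le A (Finset.univ \ (A ∪ B))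
  omega

lemma card_prv [Fintype α] {A B : Finset (α × Bool)} (hd : Disjoint A B)
    (hm : (Finset.univ \ (A ∪ B)).card ≤ 1) {b : α × Bool} (hb : b ∈ B) :
    (prv A b).card ≤ B.card := by
  refine Finset.card_image_le.trans ?_
  rw [Finset.union_comm] at hm
  exact card_nxt hd.symm hm hb

/-- the small side of a leaf gives rules -/
structure Small [Fintype α] (c : List (α × Bool)) (t : Bool) (S : Finset (α × Bool)) : Prop where
  ne : S.Nonempty
  le : S.card ≤ 2
  ru : ∀ s ∈ S, ∃ X : Finset (α × Bool), X.card ≤ 2 ∧ Ru t (if t then nv s else s) X c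

/-- dichotomy at a leaf -/
lemma leaf_dich [Fintype α] {c : List (α × Bool)} {E : Set (FreeGroup α)} {g : FreeGroup α}
    {A B : Finset (α × Bool)} (hl : IsLeaf E g A B)
    (hc : FreeGroup.IsCyclicallyReduced c) (hu : PosLine E (FreeGroup.mk c)) :
    (∃ A B : Finset (α × Bool), Disjoint A B ∧ (Finset.univ \ (A ∪ B)).card ≤ 1 ∧
      3 ≤ A.card ∧ 3 ≤ B.card ∧ c ∈ Lang Finset.univ A B) ∨ ∃ t S, Small c t S := by
  have hL := Lang_of_leaf hl hc hu
  have hmiss : (Finset.univ \ (A ∪ B)).card ≤ 1 := by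
    rw [Finset.card_le_one]
    intro a ha b hb
    simp only [Finset.mem_sdiff, Finset.mem_union, not_or, Finset.mem_univ, true_and] at ha hb
    exact hl.few a b ha.1 ha.2 hb.1 hb.2
  by_cases h1 : A.card ≤ 2
  · right
    refine ⟨true, A, hl.neA, h1, ?_⟩
    intro s hs
    refine ⟨nxt B s, (card_nxt hl.disj hmiss hs).trans h1, ?_⟩
    exact ruF A B hL hs
  by_cases h2 : B.card ≤ 2
  · right
    refine ⟨false, B, hl.neB, h2, ?_⟩
    intro s hs
    refine ⟨prv A s, (card_prv hl.disj hmiss hs).trans h2, ?_⟩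
    exact ruP A B hL hs
  left
  exact ⟨A, B, hl.disj, hmiss, by omega, by omega, hL⟩

/-- the rule from the second restriction -/
lemma zrule [Fintype α] {c : List (α × Bool)} {E : Set (FreeGroup α)}
    (hc : FreeGroup.IsCyclicallyReduced c) (hE : Good E) (hu : PosLine E (FreeGroup.mk c))
    {i : α} (hK : CutsZ i E) :
    ∃ A B : Finset (α × Bool), A ⊆ Zi i ∧ B ⊆ Zi i ∧ Disjoint A B ∧
      (Zi i \ (A ∪ B)).card ≤ 1 ∧ 1 ≤ A.card ∧ 1 ≤ B.card ∧
      ∃ P Q, ZRule i (fun x y => nv x ∈ A ∧ y ∈ B) P Q c := by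
  obtain ⟨v, hv, u, hu', g, A, B, hl, ⟨xa, hxa, hxa'⟩, ⟨xb, hxb, hxb'⟩⟩ :=
    exists_nondegenerate_leaf E hE hK
  obtain ⟨p, hp, rfl⟩ : ∃ p ∈ ZS i, v = p⁻¹ := ⟨v⁻¹, (ZS i).inv_mem hv, by simp⟩
  obtain ⟨q, hq, rfl⟩ : ∃ q ∈ ZS i, u = q⁻¹ := ⟨u⁻¹, (ZS i).inv_mem hu', by simp⟩
  refine ⟨A.filter (fun x => x.1 ≠ i), B.filter (fun x => x.1 ≠ i), ?_, ?_, ?_, ?_, ?_, ?_,
    fun s => (Rf p q (!s)).toWord, fun σ => ((Rf p q σ)⁻¹).toWord, ?_⟩
  · intro x hx
    exact mem_Zi.2 (Finset.mem_filter.1 hx).2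
  · intro x hx
    exact mem_Zi.2 (Finset.mem_filter.1 hx).2
  · exact Finset.disjoint_filter_filter hl.disj
  · rw [Finset.card_le_one]
    intro a ha b hb
    simp only [Finset.mem_sdiff, mem_Zi, Finset.mem_union, Finset.mem_filter, not_or,
      not_and] at ha hb
    apply hl.few a b
    · exact fun h => ha.2.1 h ha.1
    · exact fun h => ha.2.2 h ha.1
    · exact fun h => hb.2.1 h hb.1
    · exact fun h => hb.2.2 h hb.1
  · exact Finset.card_pos.2 ⟨xa, Finset.mem_filter.2 ⟨hxa, hxa'⟩⟩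
  · exact Finset.card_pos.2 ⟨xb, Finset.mem_filter.2 ⟨hxb, hxb'⟩⟩
  · intro l w1 x y w2 r s σ he hw hbad
    exact second_linear hp hq hl hc hu he hw (Finset.mem_filter.1 hbad.1).1
      (Finset.mem_filter.1 hbad.2).1

/-- rules in words without bad pairs -/
lemma ruF_NB [Fintype α] {v : List (α × Bool)} {i : α} {A B : Finset (α × Bool)}
    (hv : v.IsChain (fun x y => y ≠ nv x)) (hNB : NB i (fun x y => nv x ∈ A ∧ y ∈ B) v)
    {a : α × Bool} (hai : a.1 ≠ i) (ha : a ∈ A) :
    Ru true (nv a) (insert (i, true) (insert (i, false) ((Zi i \ B).erase a))) v := by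
  intro l y r he
  simp only [if_true] at he
  have h1 := (List.isChain_iff_forall_rel_of_append_cons_cons.1 hv) he
  rw [nv_nv] at h1
  by_cases hy : y.1 = i
  · obtain ⟨y1, y2⟩ := y
    simp only at hy
    subst hy
    cases y2 <;> simp
  · have h2 := hNB l (nv a) y r he hai hy
    rw [Finset.mem_insert, Finset.mem_insert, Finset.mem_erase, Finset.mem_sdiff]
    right; right
    refine ⟨h1, mem_Zi.2 hy, fun h => h2 ⟨?_, h⟩⟩
    rw [nv_nv]
    exact ha

lemma ruP_NB [Fintype α] {v : List (α × Bool)} {i : α} {A B : Finset (α × Bool)}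
    (hv : v.IsChain (fun x y => y ≠ nv x)) (hNB : NB i (fun x y => nv x ∈ A ∧ y ∈ B) v)
    {b : α × Bool} (hbi : b.1 ≠ i) (hb : b ∈ B) :
    Ru false b (insert (i, true) (insert (i, false) (((Zi i \ A).erase b).image nv))) v := by
  intro l y r he
  simp only [Bool.false_eq_true, if_false] at he
  have h1 := (List.isChain_iff_forall_rel_of_append_cons_cons.1 hv) he
  by_cases hy : y.1 = i
  · obtain ⟨y1, y2⟩ := y
    simp only at hy
    subst hy
    cases y2 <;> simp
  · have h2 := hNB l y b r he hy hbi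
    rw [Finset.mem_insert, Finset.mem_insert, Finset.mem_image]
    right; right
    refine ⟨nv y, ?_, nv_nv y⟩
    rw [Finset.mem_erase, Finset.mem_sdiff]
    exact ⟨h1.symm, mem_Zi.2 hy, fun h => h2 ⟨h, hb⟩⟩

lemma card_nxtZ [Fintype α] {i : α} {A B : Finset (α × Bool)} (hB : B ⊆ Zi i)
    (hm : (Zi i \ (A ∪ B)).card ≤ 1) {a : α × Bool} (ha : A = {a}) :
    ((Zi i \ B).erase a).card ≤ 1 := by
  refine (Finset.card_le_card ?_).trans hm
  intro x hx
  simp only [Finset.mem_erase, Finset.mem_sdiff, Finset.mem_union, ha, Finset.mem_singleton,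
    not_or] at hx ⊢
  tauto

lemma card_insert3 {x y : α × Bool} {S : Finset (α × Bool)} (hS : S.card ≤ 1) :
    (insert x (insert y S)).card ≤ 3 := by
  have h1 := Finset.card_insert_le x (insert y S)
  have h2 := Finset.card_insert_le y S
  omega

/-- a small side at the second level gives a rule in the words without bad pairs -/
lemma rule2 [Fintype α] {i : α} {A B : Finset (α × Bool)} (hA : A ⊆ Zi i) (hB : B ⊆ Zi i)
    (hm : (Zi i \ (A ∪ B)).card ≤ 1) (hA1 : 1 ≤ A.card) (hB1 : 1 ≤ B.card) :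
    (2 ≤ A.card ∧ 2 ≤ B.card) ∨ ∃ (t : Bool) (ρ : α × Bool) (X : Finset (α × Bool)),
      ρ.1 ≠ i ∧ X.card ≤ 3 ∧ ∀ v : List (α × Bool), v.IsChain (fun x y => y ≠ nv x) →
        NB i (fun x y => nv x ∈ A ∧ y ∈ B) v → Ru t ρ X v := by
  by_cases h1 : A.card = 1
  · right
    obtain ⟨a, ha⟩ := Finset.card_eq_one.1 h1
    have haA : a ∈ A := by rw [ha]; exact Finset.mem_singleton_self a
    have hai := mem_Zi.1 (hA haA)
    refine ⟨true, nv a, _, hai, ?_, fun v hv hN => ruF_NB hv hN hai haA⟩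
    exact card_insert3 (card_nxtZ hB hm ha)
  by_cases h2 : B.card = 1
  · right
    obtain ⟨b, hb⟩ := Finset.card_eq_one.1 h2
    have hbB : b ∈ B := by rw [hb]; exact Finset.mem_singleton_self b
    have hbi := mem_Zi.1 (hB hbB)
    refine ⟨false, b, _, hbi, ?_, fun v hv hN => ruP_NB hv hN hbi hbB⟩
    rw [Finset.union_comm] at hm
    exact card_insert3 (Finset.card_image_le.trans (card_nxtZ hA hm hb))
  left
  omega

end

end Pool.Agent.Helper35.PX
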