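import Mathlib
import Pool.Agent.Helper35.PX.Adm

/-!
MP_bec853_al, exactness: finiteness of the generating functions of the classes of the cover.
-/

namespace Pool.Agent.Helper35.PX

open FreeGroup Pool.Agent.Helper35.PP
open scoped ENNReal

section general

variable {β : Type}

lemma W_cover {ι : Type} [Finite ι] {z : ℝ≥0∞} {C : Set (List β)} (K : ι → Set (List β))
    (V : ι → Prop) (hfin : ∀ i, V i → W z (K i) < ⊤) (hcov : ∀ c ∈ C, ∃ i, V i ∧ c ∈ K i) :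
    W z C < ⊤ := by
  classical
  have := Fintype.ofFinite ι
  have hsub : C ⊆ ⋃ i, {c | V i ∧ c ∈ K i} := by
    intro c hc
    obtain ⟨i, h1, h2⟩ := hcov c hc
    exact Set.mem_iUnion.2 ⟨i, h1, h2⟩
  refine lt_of_le_of_lt (W_mono hsub) (lt_of_le_of_lt (W_iUnion_le _ _)
    (ENNReal.sum_lt_top.2 ?_))
  intro i _
  by_cases hv : V i
  · exact lt_of_le_of_lt (W_mono (fun c hc => hc.2)) (hfin i hv)
  · have : {c : List β | V i ∧ c ∈ K i} = ∅ := by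
      ext c
      simp only [Set.mem_setOf_eq, Set.mem_empty_iff_false, iff_false]
      exact fun hc => hv hc.1
    rw [this, W_empty]
    exact ENNReal.zero_lt_top

lemma elim' (hF : StmtElimF) (hP : StmtElimP) (t : Bool) {z w0 w1 : ℝ} {S : Set (List β)} (ρ : β)
    (X : Finset β) (hz : 0 ≤ z) (hz1 : z < 1) (hS : FactorClosed S)
    (hr : ∀ v ∈ S, Ru t ρ X v) (hw0 : 0 < w0) (hw1 : 0 < w1)
    (hW : W (ENNReal.ofReal z) {v | v ∈ S ∧ ρ ∉ v} ≤ ENNReal.ofReal w0) {m : ℕ}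
    (hm : X.card ≤ m) (h : w0 ≤ w1 * ((1 - z) - (m : ℝ) * z ^ 2 * w0)) :
    W (ENNReal.ofReal z) S ≤ ENNReal.ofReal w1 := by
  have h1z : 0 < 1 - z := by linarith
  have hpos : 0 < (1 - z) - (m : ℝ) * z ^ 2 * w0 := by
    have : 0 < w1 * ((1 - z) - (m : ℝ) * z ^ 2 * w0) := lt_of_lt_of_le hw0 h
    exact (pos_iff_pos_of_mul_pos this).1 hw1
  have e : (m : ℝ) * z ^ 2 / (1 - z) * w0 = ((m : ℝ) * z ^ 2 * w0) / (1 - z) := by
    ring
  apply elim hF hP t ρ X hz hz1 hS hr hw0.le hW hm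
  · rw [e, div_lt_one h1z]
    linarith
  · refine h.trans (le_of_eq ?_)
    rw [e]
    have : (1 - z) * (1 - (m : ℝ) * z ^ 2 * w0 / (1 - z)) = (1 - z) - (m : ℝ) * z ^ 2 * w0 := by
      rw [mul_sub, mul_one, mul_div_cancel₀ _ h1z.ne']
    rw [this]

end general

section numeric

variable {R : ℝ}

lemma zq (hR : 100 ≤ R) : 0 < 1 / (2 * R - 3) ∧ 1 / (2 * R - 3) < 1 := by
  have : 1 < 2 * R - 3 := by linarith
  refine ⟨by positivity, ?_⟩
  rw [div_lt_one (by linarith)]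
  exact this

/-- `a R ≤ b R (1 - z - m z ^ 2 a R)` at `z = 1 / (2 R - 3)` -/
lemma num_step {a b m : ℝ} (hR : 100 ≤ R)
    (h : a * (2 * R - 3) ^ 2 ≤ b * ((2 * R - 3) ^ 2 - (2 * R - 3) - m * (a * R))) :
    a * R ≤ b * R * ((1 - 1 / (2 * R - 3)) - m * (1 / (2 * R - 3)) ^ 2 * (a * R)) := by
  have hq : 0 < 2 * R - 3 := by linarith
  generalize 2 * R - 3 = q at h hq ⊢
  have e : b * R * ((1 - 1 / q) - m * (1 / q) ^ 2 * (a * R)) =
      R * (b * (q ^ 2 - q - m * (a * R))) / q ^ 2 := by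
    field_simp
  rw [e, le_div_iff₀ (by positivity)]
  nlinarith [mul_le_mul_of_nonneg_left h (by linarith : (0 : ℝ) ≤ R)]

end numeric

section

variable {α : Type} [Fintype α] [DecidableEq α]

/-- the point `1 / (2 r - 3)` -/
noncomputable def z0 (α : Type) [Fintype α] : ℝ := 1 / (2 * (Fintype.card α : ℝ) - 3)

lemma z0_pos (hr : 100 ≤ Fintype.card α) : 0 < z0 α :=
  (zq (by exact_mod_cast hr)).1

lemma z0_lt (hr : 100 ≤ Fintype.card α) : z0 α < 1 :=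
  (zq (by exact_mod_cast hr)).2

lemma Yl_card {i j : α} (hij : i ≠ j) : (Yl i j).card = 2 * Fintype.card α - 4 := by
  have e : Yl i j = (((Finset.univ : Finset α).erase i).erase j) ×ˢ (Finset.univ : Finset Bool) := by
    ext x
    simp only [Yl, Finset.mem_filter, Finset.mem_univ, true_and, Finset.mem_product,
      Finset.mem_erase, and_true]
    tauto
  rw [e, Finset.card_product, Finset.card_erase_of_mem, Finset.card_erase_of_mem (Finset.mem_univ i),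
    Finset.card_univ, Finset.card_univ, Fintype.card_bool]
  · omega
  · rw [Finset.mem_erase]
    exact ⟨hij.symm, Finset.mem_univ _⟩

lemma Yl_nv (i j : α) : ∀ x ∈ Yl i j, nv x ∈ Yl i j := by
  intro x hx
  simpa [Yl] using hx

/-- words satisfying two rules and the third restriction -/
def K3 (t1 t2 : Bool) (ρ1 ρ2 : α × Bool) (X1 X2 : Finset (α × Bool))
    (fl ll : (α × Bool) → (α × Bool)) (A B : Finset (α × Bool)) : Set (List (α × Bool)) :=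
  {v | v.IsChain (fun x y => y ≠ nv x) ∧ Ru t1 ρ1 X1 v ∧ Ru t2 ρ2 X2 v ∧
    R3 ρ1.1 ρ2.1 fl ll A B v}

lemma factorClosed_K3 (t1 t2 : Bool) (ρ1 ρ2 : α × Bool) (X1 X2 : Finset (α × Bool))
    (fl ll : (α × Bool) → (α × Bool)) (A B : Finset (α × Bool)) :
    FactorClosed (K3 t1 t2 ρ1 ρ2 X1 X2 fl ll A B) :=
  FactorClosed.and factorClosed_red (FactorClosed.and (factorClosed_Ru _ _ _)
    (FactorClosed.and (factorClosed_Ru _ _ _) (factorClosed_R3 _ _ _ _ _ _)))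

omit [Fintype α] [DecidableEq α] in
lemma eq_nv_of {x ρ : α × Bool} (h : x.1 = ρ.1) (hne : x ≠ ρ) : x = nv ρ := by
  obtain ⟨x1, x2⟩ := x
  obtain ⟨p1, p2⟩ := ρ
  simp only at h
  subst h
  cases x2 <;> cases p2 <;> simp_all [nv]

/-- sides of a leaf among the letters of `Λ` -/
def Sides (Λ A B : Finset (α × Bool)) : Prop :=
  A ⊆ Λ ∧ B ⊆ Λ ∧ Disjoint A B ∧ (Λ \ (A ∪ B)).card ≤ 1 ∧ 1 ≤ A.card ∧ 1 ≤ B.card

lemma W_K3_le (hF : StmtElimF) (hP : StmtElimP) (h0 : StmtF0) (hL : StmtL)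
    (hr : 100 ≤ Fintype.card α) {t1 t2 : Bool} {ρ1 ρ2 : α × Bool} {X1 X2 : Finset (α × Bool)}
    {fl ll : (α × Bool) → (α × Bool)} {A B : Finset (α × Bool)} (hne : ρ1.1 ≠ ρ2.1)
    (hX1 : X1.card ≤ 2) (hX2 : X2.card ≤ 3) (hAB : Sides (Yl ρ1.1 ρ2.1) A B) :
    W (ENNReal.ofReal (z0 α)) (K3 t1 t2 ρ1 ρ2 X1 X2 fl ll A B) ≤
      ENNReal.ofReal (70 * Fintype.card α) := by
  have hR : (100 : ℝ) ≤ Fintype.card α := by exact_mod_cast hr
  set R : ℝ := (Fintype.card α : ℝ) with hRdef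
  have hz := z0_pos hr
  have hz1 := z0_lt hr
  obtain ⟨hA, hB, hdis, hm, hA1, hB1⟩ := hAB
  have hS := factorClosed_K3 t1 t2 ρ1 ρ2 X1 X2 fl ll A B
  apply elim' hF hP t1 ρ1 X1 (w0 := 51 * R) (m := 2) hz.le hz1 hS (fun v hv => hv.2.1)
    (by positivity) (by positivity) _ hX1
  · unfold z0
    rw [← hRdef]
    apply num_step hR
    push_cast
    nlinarith [mul_nonneg (sub_nonneg.2 hR) (sub_nonneg.2 hR)]
  apply elim' hF hP t2 ρ2 X2 (w0 := 36 * R) (m := 3) hz.le hz1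
    (FactorClosed.and' hS (factorClosed_notMem _)) (fun v hv => hv.1.2.2.1)
    (by positivity) (by positivity) _ hX2
  · unfold z0
    rw [← hRdef]
    apply num_step hR
    push_cast
    nlinarith [mul_nonneg (sub_nonneg.2 hR) (sub_nonneg.2 hR)]
  have hLang := (hL α (Yl ρ1.1 ρ2.1) A B hr (Yl_nv _ _) hA hB hdis hm).1 (Yl_card hne) hA1 hB1
  refine le_trans (W_mono ?_) (h0 α ρ1.1 ρ2.1 (nv ρ1) (nv ρ2) fl ll A B hr hne rfl rfl hLang)
  rintro v ⟨⟨⟨h1, -, -, h2⟩, h3⟩, h4⟩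
  refine ⟨h1, ?_, h2⟩
  intro x hx
  by_cases hx1 : x.1 = ρ1.1
  · exact Or.inl (eq_nv_of hx1 (fun h => h3 (h ▸ hx)))
  · by_cases hx2 : x.1 = ρ2.1
    · exact Or.inr (Or.inl (eq_nv_of hx2 (fun h => h4 (h ▸ hx))))
    · exact Or.inr (Or.inr ⟨hx1, hx2⟩)

lemma W_of_le_z0 {z : ℝ} (hz : z ≤ z0 α) (S : Set (List (α × Bool))) :
    W (ENNReal.ofReal z) S ≤ W (ENNReal.ofReal (z0 α)) S :=
  W_mono_z (ENNReal.ofReal_le_ofReal hz) S

/-- no letter `i` -/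
lemma W_noi_lt_top (hr : 100 ≤ Fintype.card α) {z : ℝ} (hz : 0 < z) (hz0 : z < z0 α) (i : α)
    {S : Set (List (α × Bool))} (hS : ∀ v ∈ S, v.IsChain (fun x y => y ≠ nv x)) :
    W (ENNReal.ofReal z) {v | v ∈ S ∧ ∀ x ∈ v, x.1 ≠ i} < ⊤ := by
  have hR : (100 : ℝ) ≤ Fintype.card α := by exact_mod_cast hr
  have hsub : {v | v ∈ S ∧ ∀ x ∈ v, x.1 ≠ i} ⊆ Zr (Zi i) := by
    rintro v ⟨h1, h2⟩
    exact ⟨fun x hx => mem_Zi.2 (h2 x hx), hS v h1⟩
  refine lt_of_le_of_lt (W_mono hsub) ?_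
  have hq : 0 < 2 * (Fintype.card α : ℝ) - 3 := by linarith
  have hlt : (2 * (Fintype.card α : ℝ) - 3) * z < 1 := by
    unfold z0 at hz0
    rw [lt_div_iff₀ hq] at hz0
    linarith
  have hpos : 0 < 1 - (2 * (Fintype.card α : ℝ) - 3) * z := by linarith
  apply W_Zr (Zi_nv i) hz.le (Φ := 1 / (1 - (2 * (Fintype.card α : ℝ) - 3) * z)) (by positivity)
  have hcard : ((Zi i).card : ℝ) = 2 * (Fintype.card α : ℝ) - 2 := by
    rw [Zi_card, Nat.cast_sub (by omega)]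
    push_cast
    ring
  rw [hcard]
  have h3 : 1 / (1 - (2 * (Fintype.card α : ℝ) - 3) * z) * (1 - (2 * (Fintype.card α : ℝ) - 3) * z)
      = 1 := one_div_mul_cancel hpos.ne'
  generalize 1 / (1 - (2 * (Fintype.card α : ℝ) - 3) * z) = q at h3 ⊢
  nlinarith [h3]

lemma dict_num (hr : 100 ≤ Fintype.card α) {z : ℝ} (hz : 0 < z) (hz0 : z < z0 α) :
    2 * z ^ 2 * (2 - z) / (1 - z) ^ 2 * (70 * Fintype.card α) < 1 := by
  have hR : (100 : ℝ) ≤ Fintype.card α := by exact_mod_cast hr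
  set R : ℝ := (Fintype.card α : ℝ) with hRdef
  have hq : 0 < 2 * R - 3 := by linarith
  have hlt : (2 * R - 3) * z < 1 := by
    unfold z0 at hz0
    rw [← hRdef, lt_div_iff₀ hq] at hz0
    linarith
  have h1z : 0 < 1 - z := by nlinarith
  -- `z / (1 - z) < 1 / (2 R - 4)`
  have h2 : (2 * R - 4) * z < 1 - z := by linarith
  rw [div_mul_eq_mul_div, div_lt_one (by positivity)]
  have h3 : ((2 * R - 4) * z) ^ 2 < (1 - z) ^ 2 := by
    apply pow_lt_pow_left₀ h2 (by nlinarith) (by norm_num)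
  have h4 : 2 * z ^ 2 * (2 - z) * (70 * R) ≤ 280 * R * z ^ 2 := by
    have : 0 ≤ 140 * R * z ^ 3 := by positivity
    nlinarith
  have h5 : 280 * R * z ^ 2 ≤ ((2 * R - 4) * z) ^ 2 := by
    have : 280 * R ≤ (2 * R - 4) ^ 2 := by nlinarith
    nlinarith [mul_le_mul_of_nonneg_right this (sq_nonneg z)]
  linarith

/-- the dictionary step -/
lemma dict_step (hD : StmtDict) (hr : 100 ≤ Fintype.card α) {z : ℝ} (hz : 0 < z)
    (hz0 : z < z0 α) (i : α) (bad : (α × Bool) → (α × Bool) → Prop)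
    {S : Set (List (α × Bool))} (hSf : FactorClosed S)
    (hS : ∀ v ∈ S, v.IsChain (fun x y => y ≠ nv x))
    (hW : W (ENNReal.ofReal (z0 α)) {v | v ∈ S ∧ NB i bad v} ≤
      ENNReal.ofReal (70 * Fintype.card α)) :
    W (ENNReal.ofReal z) {u | u ∈ S ∧ ∃ P Q, ZRule i bad P Q u} < ⊤ := by
  apply hD α i bad S z (70 * Fintype.card α) hz (hz0.trans (z0_lt hr)) hSf (by positivity)
    (W_noi_lt_top hr hz hz0 i hS) ((W_of_le_z0 hz0.le _).trans hW) (dict_num hr hz hz0)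

/-- the bad pairs given by two sets -/
def bd (A B : Finset (α × Bool)) (x y : α × Bool) : Prop := nv x ∈ A ∧ y ∈ B

/-- one rule and the third restriction -/
def S4 (t1 : Bool) (ρ1 : α × Bool) (X1 : Finset (α × Bool)) (j : α)
    (fl ll : (α × Bool) → (α × Bool)) (A B : Finset (α × Bool)) : Set (List (α × Bool)) :=
  {v | v.IsChain (fun x y => y ≠ nv x) ∧ Ru t1 ρ1 X1 v ∧ R3 ρ1.1 j fl ll A B v}

/-- one rule -/
def S1 (t1 : Bool) (ρ1 : α × Bool) (X1 : Finset (α × Bool)) : Set (List (α × Bool)) :=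
  {v | v.IsChain (fun x y => y ≠ nv x) ∧ Ru t1 ρ1 X1 v}

/-- two rules -/
def S2 (t1 t2 : Bool) (ρ1 ρ2 : α × Bool) (X1 X2 : Finset (α × Bool)) : Set (List (α × Bool)) :=
  {v | v.IsChain (fun x y => y ≠ nv x) ∧ Ru t1 ρ1 X1 v ∧ Ru t2 ρ2 X2 v}

lemma W_case4 (hF : StmtElimF) (hP : StmtElimP) (h0 : StmtF0) (hL : StmtL) (hD : StmtDict)
    (hr : 100 ≤ Fintype.card α) {z : ℝ} (hz : 0 < z) (hz0 : z < z0 α)
    {t1 t2 : Bool} {ρ1 ρ2 : α × Bool} {X1 X2 : Finset (α × Bool)}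
    {fl ll : (α × Bool) → (α × Bool)} {A B A' B' : Finset (α × Bool)} (hne : ρ1.1 ≠ ρ2.1)
    (hX1 : X1.card ≤ 2) (hX2 : X2.card ≤ 3) (hAB : Sides (Yl ρ1.1 ρ2.1) A B)
    (hrule : ∀ v : List (α × Bool), v.IsChain (fun x y => y ≠ nv x) →
        NB ρ1.1 (bd A' B') v → Ru t2 ρ2 X2 v) :
    W (ENNReal.ofReal z) {u | u ∈ S4 t1 ρ1 X1 ρ2.1 fl ll A B ∧
      ∃ P Q, ZRule ρ1.1 (bd A' B') P Q u} < ⊤ := by
  apply dict_step hD hr hz hz0
  · exact FactorClosed.and factorClosed_red (FactorClosed.and (factorClosed_Ru _ _ _)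
      (factorClosed_R3 _ _ _ _ _ _))
  · exact fun v hv => hv.1
  · refine le_trans (W_mono ?_) (W_K3_le hF hP h0 hL hr (t1 := t1) (t2 := t2) (X1 := X1)
      (X2 := X2) (fl := fl) (ll := ll) hne hX1 hX2 hAB)
    rintro v ⟨⟨h1, h2, h3⟩, h4⟩
    exact ⟨h1, h2, hrule v h1 h4, h3⟩

/-- words without bad pairs and without `i` -/
lemma W_noi_NB (hL : StmtL) (hr : 100 ≤ Fintype.card α) {i : α} {A B : Finset (α × Bool)}
    (hAB : Sides (Zi i) A B) {S : Set (List (α × Bool))}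
    (hS : ∀ v ∈ S, v.IsChain (fun x y => y ≠ nv x) ∧ NB i (bd A B) v ∧ ∀ x ∈ v, x.1 ≠ i) :
    W (ENNReal.ofReal (z0 α)) S ≤ ENNReal.ofReal (21 * Fintype.card α / 10) ∧
    (2 ≤ A.card → 2 ≤ B.card →
      W (ENNReal.ofReal (z0 α)) S ≤ ENNReal.ofReal (11 * Fintype.card α / 10)) := by
  obtain ⟨hA, hB, hdis, hm, hA1, hB1⟩ := hAB
  have hsub : S ⊆ Lang (Zi i) A B := by
    intro v hv
    obtain ⟨h1, h2, h3⟩ := hS v hv
    refine ⟨fun x hx => mem_Zi.2 (h3 x hx), ?_⟩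
    rw [List.isChain_iff_forall_rel_of_append_cons_cons]
    intro x y l r h
    refine ⟨List.isChain_iff_forall_rel_of_append_cons_cons.1 h1 h, ?_⟩
    exact h2 l x y r h (h3 x (by rw [h]; simp)) (h3 y (by rw [h]; simp))
  have hh := hL α (Zi i) A B hr (Zi_nv i) hA hB hdis hm
  exact ⟨(W_mono hsub).trans (hh.2.1 (Zi_card i) hA1 hB1),
    fun h1 h2 => (W_mono hsub).trans (hh.2.2.1 (Zi_card i) h1 h2)⟩

lemma W_case2 (hF : StmtElimF) (hP : StmtElimP) (hL : StmtL) (hD : StmtDict)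
    (hr : 100 ≤ Fintype.card α) {z : ℝ} (hz : 0 < z) (hz0 : z < z0 α)
    {t1 t2 : Bool} {ρ : α × Bool} {X1 X2 : Finset (α × Bool)}
    {A' B' : Finset (α × Bool)}
    (hX1 : X1.card ≤ 2) (hX2 : X2.card ≤ 2) (hAB : Sides (Zi ρ.1) A' B') :
    W (ENNReal.ofReal z) {u | u ∈ S2 t1 t2 ρ (nv ρ) X1 X2 ∧
      ∃ P Q, ZRule ρ.1 (bd A' B') P Q u} < ⊤ := by
  have hR : (100 : ℝ) ≤ Fintype.card α := by exact_mod_cast hr
  set R : ℝ := (Fintype.card α : ℝ) with hRdef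
  have hzz := z0_pos hr
  have hzz1 := z0_lt hr
  have hS : FactorClosed (S2 t1 t2 ρ (nv ρ) X1 X2) :=
    FactorClosed.and factorClosed_red (FactorClosed.and (factorClosed_Ru _ _ _)
      (factorClosed_Ru _ _ _))
  have hS' : FactorClosed {v | v ∈ S2 t1 t2 ρ (nv ρ) X1 X2 ∧ NB ρ.1 (bd A' B') v} :=
    FactorClosed.and' hS (factorClosed_NB _ _)
  apply dict_step hD hr hz hz0 ρ.1 _ hS
  · exact fun v hv => hv.1
  refine le_trans (b := ENNReal.ofReal (4 * R)) ?_ (ENNReal.ofReal_le_ofReal (by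
    rw [← hRdef]; nlinarith))
  apply elim' hF hP t1 ρ X1 (w0 := 3 * R) (m := 2) hzz.le hzz1 hS' (fun v hv => hv.1.2.1)
    (by positivity) (by positivity) _ hX1
  · unfold z0
    rw [← hRdef]
    apply num_step hR
    push_cast
    nlinarith [mul_nonneg (sub_nonneg.2 hR) (sub_nonneg.2 hR)]
  apply elim' hF hP t2 (nv ρ) X2 (w0 := 21 / 10 * R) (m := 2) hzz.le hzz1
    (FactorClosed.and' hS' (factorClosed_notMem _)) (fun v hv => hv.1.1.2.2)
    (by positivity) (by positivity) _ hX2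
  · unfold z0
    rw [← hRdef]
    apply num_step hR
    push_cast
    nlinarith [mul_nonneg (sub_nonneg.2 hR) (sub_nonneg.2 hR)]
  have h := (W_noi_NB hL hr (i := ρ.1) hAB (S := {v | v ∈ {v | v ∈ {v | v ∈ S2 t1 t2 ρ (nv ρ) X1 X2 ∧
    NB ρ.1 (bd A' B') v} ∧ ρ ∉ v} ∧ nv ρ ∉ v}) ?_).1
  · refine h.trans (ENNReal.ofReal_le_ofReal (le_of_eq ?_))
    rw [← hRdef]
    ring
  · rintro v ⟨⟨⟨⟨h1, -, -⟩, h2⟩, h3⟩, h4⟩
    refine ⟨h1, h2, ?_⟩
    intro x hx hxi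
    by_cases hxr : x = ρ
    · exact h3 (hxr ▸ hx)
    · exact h4 (eq_nv_of hxi hxr ▸ hx)

lemma W_case3 (hF : StmtElimF) (hP : StmtElimP) (hL : StmtL) (hD : StmtDict)
    (hr : 100 ≤ Fintype.card α) {z : ℝ} (hz : 0 < z) (hz0 : z < z0 α)
    {t1 : Bool} {ρ : α × Bool} {X1 : Finset (α × Bool)}
    {A' B' : Finset (α × Bool)}
    (hX1 : X1.card ≤ 2) (hAB : Sides (Zi ρ.1) A' B') (hA2 : 2 ≤ A'.card) (hB2 : 2 ≤ B'.card) :
    W (ENNReal.ofReal z) {u | u ∈ S1 t1 ρ X1 ∧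
      ∃ P Q, ZRule ρ.1 (bd A' B') P Q u} < ⊤ := by
  have hR : (100 : ℝ) ≤ Fintype.card α := by exact_mod_cast hr
  set R : ℝ := (Fintype.card α : ℝ) with hRdef
  have hzz := z0_pos hr
  have hzz1 := z0_lt hr
  have hS : FactorClosed (S1 t1 ρ X1) :=
    FactorClosed.and factorClosed_red (factorClosed_Ru _ _ _)
  have hS' : FactorClosed {v | v ∈ S1 t1 ρ X1 ∧ NB ρ.1 (bd A' B') v} :=
    FactorClosed.and' hS (factorClosed_NB _ _)
  apply dict_step hD hr hz hz0 ρ.1 _ hS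
  · exact fun v hv => hv.1
  refine le_trans (b := ENNReal.ofReal (4 * R)) ?_ (ENNReal.ofReal_le_ofReal (by
    rw [← hRdef]; nlinarith))
  apply elim' hF hP t1 ρ X1 (w0 := 3 * R) (m := 2) hzz.le hzz1 hS' (fun v hv => hv.1.2)
    (by positivity) (by positivity) _ hX1
  · unfold z0
    rw [← hRdef]
    apply num_step hR
    push_cast
    nlinarith [mul_nonneg (sub_nonneg.2 hR) (sub_nonneg.2 hR)]
  have hq : 0 < 2 * R - 3 := by linarith
  have hzT : z0 α * (11 * R / 10) < 6 / 10 := by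
    unfold z0
    rw [← hRdef, one_div_mul_eq_div, div_lt_iff₀ hq]
    linarith
  have hsplit := W_split_real (z := z0 α) (T := 11 * R / 10) hzz.le (by positivity)
    (by linarith) (nv ρ) (FactorClosed.and' hS' (factorClosed_notMem ρ)) (by
      apply (W_noi_NB hL hr (i := ρ.1) hAB ?_).2 hA2 hB2
      rintro v ⟨⟨⟨⟨h1, -⟩, h2⟩, h3⟩, h4⟩
      refine ⟨h1, h2, ?_⟩
      intro x hx hxi
      by_cases hxr : x = ρ
      · exact h3 (hxr ▸ hx)
      · exact h4 (eq_nv_of hxi hxr ▸ hx))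
  refine hsplit.trans (ENNReal.ofReal_le_ofReal ?_)
  rw [div_le_iff₀ (by linarith)]
  nlinarith

end

end Pool.Agent.Helper35.PX
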