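import Mathlib
import Pool.Agent.Helper35.PX.Finite

/-!
MP_bec853_al, exactness: assembly.
-/

namespace Pool.Agent.Helper35.PX

open FreeGroup Pool.Agent.Helper35.PP
open scoped ENNReal

section

variable {α : Type} [Fintype α] [DecidableEq α]

/-- cyclically reduced words with the property -/
def CCX (α : Type) [DecidableEq α] : Set (List (α × Bool)) :=
  {c | FreeGroup.IsCyclicallyReduced c ∧ AdmX (FreeGroup.mk c)}

lemma exists_ne2 (hr : 100 ≤ Fintype.card α) (i j : α) : ∃ z : α, z ≠ i ∧ z ≠ j := by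
  have h : ({i, j} : Finset α).card < Fintype.card α := by
    have := Finset.card_le_two (a := i) (b := j)
    omega
  obtain ⟨z, hz⟩ := Finset.exists_mem_notMem_of_card_lt_card (s := {i, j})
    (t := Finset.univ) (by rwa [Finset.card_univ])
  refine ⟨z, ?_⟩
  have := hz.2
  rw [Finset.mem_insert, Finset.mem_singleton, not_or] at this
  exact this

/-- **Cover**. -/
theorem coverX (hB : StmtB) (hC : StmtBCC) (hr : 100 ≤ Fintype.card α)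
    {c : List (α × Bool)} (hc : c ∈ CCX α) :
    (∃ p : Finset (α × Bool) × Finset (α × Bool), (Disjoint p.1 p.2 ∧
      (Finset.univ \ (p.1 ∪ p.2)).card ≤ 1 ∧ 3 ≤ p.1.card ∧ 3 ≤ p.2.card) ∧
        c ∈ Lang Finset.univ p.1 p.2) ∨
    (∃ p : (Bool × Bool × (α × Bool) × (α × Bool) × Finset (α × Bool) × Finset (α × Bool)) ×
      (((α × Bool) → (α × Bool)) × ((α × Bool) → (α × Bool)) × Finset (α × Bool) ×
        Finset (α × Bool)),
      (p.1.2.2.1.1 ≠ p.1.2.2.2.1.1 ∧ p.1.2.2.2.2.1.card ≤ 2 ∧ p.1.2.2.2.2.2.card ≤ 3 ∧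
        Sides (Yl p.1.2.2.1.1 p.1.2.2.2.1.1) p.2.2.2.1 p.2.2.2.2) ∧
      c ∈ K3 p.1.1 p.1.2.1 p.1.2.2.1 p.1.2.2.2.1 p.1.2.2.2.2.1 p.1.2.2.2.2.2
        p.2.1 p.2.2.1 p.2.2.2.1 p.2.2.2.2) ∨
    (∃ p : (Bool × Bool × (α × Bool) × Finset (α × Bool) × Finset (α × Bool)) ×
      (Finset (α × Bool) × Finset (α × Bool)),
      (p.1.2.2.2.1.card ≤ 2 ∧ p.1.2.2.2.2.card ≤ 2 ∧ Sides (Zi p.1.2.2.1.1) p.2.1 p.2.2) ∧
      c ∈ {u | u ∈ S2 p.1.1 p.1.2.1 p.1.2.2.1 (nv p.1.2.2.1) p.1.2.2.2.1 p.1.2.2.2.2 ∧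
        ∃ P Q, ZRule p.1.2.2.1.1 (bd p.2.1 p.2.2) P Q u}) ∨
    (∃ p : (Bool × (α × Bool) × Finset (α × Bool)) ×
      (Finset (α × Bool) × Finset (α × Bool)),
      (p.1.2.2.card ≤ 2 ∧ Sides (Zi p.1.2.1.1) p.2.1 p.2.2 ∧ 2 ≤ p.2.1.card ∧ 2 ≤ p.2.2.card) ∧
      c ∈ {u | u ∈ S1 p.1.1 p.1.2.1 p.1.2.2 ∧
        ∃ P Q, ZRule p.1.2.1.1 (bd p.2.1 p.2.2) P Q u}) ∨
    (∃ p : (Bool × Bool × (α × Bool) × (α × Bool) × Finset (α × Bool) × Finset (α × Bool)) ×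
      (((α × Bool) → (α × Bool)) × ((α × Bool) → (α × Bool)) × Finset (α × Bool) ×
        Finset (α × Bool)) × (Finset (α × Bool) × Finset (α × Bool)),
      (p.1.2.2.1.1 ≠ p.1.2.2.2.1.1 ∧ p.1.2.2.2.2.1.card ≤ 2 ∧ p.1.2.2.2.2.2.card ≤ 3 ∧
        Sides (Yl p.1.2.2.1.1 p.1.2.2.2.1.1) p.2.1.2.2.1 p.2.1.2.2.2 ∧
        (∀ v : List (α × Bool), v.IsChain (fun x y => y ≠ nv x) →
          NB p.1.2.2.1.1 (bd p.2.2.1 p.2.2.2) v →
            Ru p.1.2.1 p.1.2.2.2.1 p.1.2.2.2.2.2 v)) ∧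
      c ∈ {u | u ∈ S4 p.1.1 p.1.2.2.1 p.1.2.2.2.2.1 p.1.2.2.2.1.1
        p.2.1.1 p.2.1.2.1 p.2.1.2.2.1 p.2.1.2.2.2 ∧
        ∃ P Q, ZRule p.1.2.2.1.1 (bd p.2.2.1 p.2.2.2) P Q u}) := by
  obtain ⟨hcyc, hadm⟩ := hc
  have hred := chain_of_reduced hcyc.isReduced
  obtain ⟨z1⟩ : Nonempty α := Fintype.card_pos_iff.1 (by omega)
  obtain ⟨E, hE, hu, hcut⟩ := hadm z1
  obtain ⟨g, A, B, hl⟩ := exists_leaf hE hcut.infinite.1 hcut.infinite.2
  rcases leaf_dich hl hcyc hu with ⟨A, B, h1, h2, h3, h4, h5⟩ | ⟨t, S, hS⟩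
  · left
    exact ⟨(A, B), ⟨h1, h2, h3, h4⟩, h5⟩
  right
  have hS1 : 1 ≤ S.card := Finset.card_pos.2 hS.ne
  have hS2 := hS.le
  by_cases hcard : S.card = 2
  · obtain ⟨s1, s2, hs12, rfl⟩ := Finset.card_eq_two.1 hcard
    obtain ⟨X1, hX1, hR1⟩ := hS.ru s1 (by simp)
    obtain ⟨X2, hX2, hR2⟩ := hS.ru s2 (by simp)
    by_cases hlet : s1.1 = s2.1
    · -- both letters of `i`
      right; left
      have hs2 : s2 = nv s1 := eq_nv_of hlet.symm hs12.symm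
      obtain ⟨z, hz, -⟩ := exists_ne2 hr s1.1 s1.1
      obtain ⟨E', hE', hu', hcut'⟩ := hadm z
      obtain ⟨A', B', h1, h2, h3, h4, h5, h6, h7⟩ := zrule hcyc hE' hu' (hcut'.cutsZ hz)
      refine ⟨((t, t, (if t then nv s1 else s1), X1, X2), (A', B')), ⟨hX1, hX2, ?_⟩, ?_, ?_⟩
      · cases t <;> exact ⟨h1, h2, h3, h4, h5, h6⟩
      · refine ⟨hred, hR1, ?_⟩
        subst hs2
        cases t <;> exact hR2
      · cases t <;> exact h7
    · left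
      obtain ⟨z, hz1, hz2⟩ := exists_ne2 hr s1.1 s2.1
      obtain ⟨E', hE', hu', hcut'⟩ := hadm z
      obtain ⟨fl, ll, A', B', h1, h2, h3, h4, h5, h6, h7⟩ :=
        third hB hC hcyc hE' hu' hlet hz1 hz2 hcut'
      refine ⟨((t, t, (if t then nv s1 else s1), (if t then nv s2 else s2), X1, X2),
        (fl, ll, A', B')), ⟨?_, hX1, hX2.trans (by norm_num), ?_⟩, ?_⟩
      · cases t <;> exact hlet
      · cases t <;> exact ⟨h1, h2, h3, h4, h5, h6⟩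
      · refine ⟨hred, hR1, hR2, ?_⟩
        cases t <;> exact h7
  · obtain ⟨s, rfl⟩ := Finset.card_eq_one.1 (show S.card = 1 by omega)
    obtain ⟨X1, hX1, hR1⟩ := hS.ru s (by simp)
    set ρ := (if t then nv s else s) with hρ
    obtain ⟨z, hz, -⟩ := exists_ne2 hr ρ.1 ρ.1
    obtain ⟨E', hE', hu', hcut'⟩ := hadm z
    obtain ⟨A', B', h1, h2, h3, h4, h5, h6, h7⟩ := zrule hcyc hE' hu' (hcut'.cutsZ hz)
    rcases rule2 h1 h2 h4 h5 h6 with ⟨k1, k2⟩ | ⟨t2, ρ2, X2, k1, k2, k3⟩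
    · right; right; left
      exact ⟨((t, ρ, X1), (A', B')), ⟨hX1, ⟨h1, h2, h3, h4, h5, h6⟩, k1, k2⟩,
        ⟨hred, hR1⟩, h7⟩
    · right; right; right
      obtain ⟨z2, hz1, hz2⟩ := exists_ne2 hr ρ.1 ρ2.1
      obtain ⟨E2, hE2, hu2, hcut2⟩ := hadm z2
      obtain ⟨fl, ll, A2, B2, m1, m2, m3, m4, m5, m6, m7⟩ :=
        third hB hC hcyc hE2 hu2 (Ne.symm k1) hz1 hz2 hcut2
      exact ⟨((t, t2, ρ, ρ2, X1, X2), (fl, ll, A2, B2), (A', B')),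
        ⟨Ne.symm k1, hX1, k2, ⟨m1, m2, m3, m4, m5, m6⟩, k3⟩, ⟨hred, hR1, m7⟩, h7⟩

omit [Fintype α] [DecidableEq α] in
lemma W_or {z : ℝ≥0∞} {C : Set (List (α × Bool))} {p q : List (α × Bool) → Prop}
    (h : ∀ c ∈ C, p c ∨ q c) (hp : W z {c | p c} < ⊤) (hq : W z {c | q c} < ⊤) : W z C < ⊤ :=
  lt_of_le_of_lt ((W_mono (T := {c | p c} ∪ {c | q c}) (fun c hc => h c hc)).trans
    (W_union_le _ _ _)) (ENNReal.add_lt_top.2 ⟨hp, hq⟩)

theorem W_CCX_lt_top (hB : StmtB) (hC : StmtBCC) (hF : StmtElimF) (hP : StmtElimP)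
    (h0 : StmtF0) (hL : StmtL) (hD : StmtDict) (hr : 100 ≤ Fintype.card α) {z : ℝ} (hz : 0 < z)
    (hz0 : z < z0 α) : W (ENNReal.ofReal z) (CCX α) < ⊤ := by
  refine W_or (fun c hc => coverX hB hC hr hc) ?_ ?_
  · refine W_cover _ _ ?_ (fun c hc => hc)
    rintro ⟨A, B⟩ ⟨h1, h2, h3, h4⟩
    refine lt_of_le_of_lt (W_of_le_z0 hz0.le _) ?_
    apply (hL α Finset.univ A B hr univ_nv (Finset.subset_univ _) (Finset.subset_univ _)
      h1 h2).2.2.2 _ h3 h4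
    rw [Finset.card_univ, Fintype.card_prod, Fintype.card_bool, mul_comm]
  refine W_or (fun c hc => hc) ?_ ?_
  · refine W_cover _ _ ?_ (fun c hc => hc)
    rintro ⟨⟨t1, t2, ρ1, ρ2, X1, X2⟩, ⟨fl, ll, A, B⟩⟩ ⟨h1, h2, h3, h4⟩
    refine lt_of_le_of_lt (W_of_le_z0 hz0.le _) ?_
    exact lt_of_le_of_lt (W_K3_le hF hP h0 hL hr h1 h2 h3 h4) ENNReal.ofReal_lt_top
  refine W_or (fun c hc => hc) ?_ ?_
  · refine W_cover _ _ ?_ (fun c hc => hc)
    rintro ⟨⟨t1, t2, ρ, X1, X2⟩, ⟨A, B⟩⟩ ⟨h1, h2, h3⟩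
    exact W_case2 hF hP hL hD hr hz hz0 h1 h2 h3
  refine W_or (fun c hc => hc) ?_ ?_
  · refine W_cover _ _ ?_ (fun c hc => hc)
    rintro ⟨⟨t1, ρ, X1⟩, ⟨A, B⟩⟩ ⟨h1, h2, h3, h4⟩
    exact W_case3 hF hP hL hD hr hz hz0 h1 h2 h3 h4
  · refine W_cover _ _ ?_ (fun c hc => hc)
    rintro ⟨⟨t1, t2, ρ1, ρ2, X1, X2⟩, ⟨fl, ll, A, B⟩, ⟨A', B'⟩⟩ ⟨h1, h2, h3, h4, h5⟩
    exact W_case4 hF hP h0 hL hD hr hz hz0 h1 h2 h3 h4 h5

theorem W_allX_lt_top (hB : StmtB) (hC : StmtBCC) (hF : StmtElimF) (hP : StmtElimP)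
    (h0 : StmtF0) (hL : StmtL) (hD : StmtDict) (hr : 100 ≤ Fintype.card α) {z : ℝ} (hz : 0 < z)
    (hz0 : z < z0 α) :
    W (ENNReal.ofReal z) {w | ∃ u : FreeGroup α, AdmX u ∧ w = u.toWord} < ⊤ := by
  have hsub : {w | ∃ u : FreeGroup α, AdmX u ∧ w = u.toWord} ⊆
      Cj (Zr (Finset.univ : Finset (α × Bool))) (CCX α) := by
    rintro w ⟨u, hu, rfl⟩
    have e := FreeGroup.reduceCyclically.conj_conjugator_reduceCyclically u.toWord
    refine ⟨FreeGroup.reduceCyclically.conjugator u.toWord, ⟨fun x _ => Finset.mem_univ x, ?_⟩,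
      FreeGroup.reduceCyclically u.toWord, ⟨?_, ?_⟩, e.symm⟩
    · apply chain_of_reduced
      apply red_of (isReduced_toWord (x := u))
      exact ⟨[], FreeGroup.reduceCyclically u.toWord ++
        FreeGroup.invRev (FreeGroup.reduceCyclically.conjugator u.toWord), by
          rw [List.nil_append, ← List.append_assoc]; exact e⟩
    · exact FreeGroup.reduceCyclically.isCyclicallyReduced isReduced_toWord
    · have h1 := hu.conj (FreeGroup.mk (FreeGroup.reduceCyclically.conjugator u.toWord))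
      convert h1 using 1
      have h2 : u = FreeGroup.mk (FreeGroup.reduceCyclically.conjugator u.toWord) *
          FreeGroup.mk (FreeGroup.reduceCyclically u.toWord) *
          (FreeGroup.mk (FreeGroup.reduceCyclically.conjugator u.toWord))⁻¹ := by
        rw [FreeGroup.inv_mk, FreeGroup.mul_mk, FreeGroup.mul_mk, e, FreeGroup.mk_toWord]
      generalize FreeGroup.mk (FreeGroup.reduceCyclically.conjugator u.toWord) = a at h2 ⊢
      generalize FreeGroup.mk (FreeGroup.reduceCyclically u.toWord) = b at h2 ⊢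
      rw [h2]
      group
  refine lt_of_le_of_lt ((W_mono hsub).trans (W_Cj_le _ _ _)) ?_
  apply ENNReal.mul_lt_top _ (W_CCX_lt_top hB hC hF hP h0 hL hD hr hz hz0)
  rw [← ENNReal.ofReal_pow hz.le]
  have hR : (100 : ℝ) ≤ Fintype.card α := by exact_mod_cast hr
  set R : ℝ := (Fintype.card α : ℝ) with hRdef
  have hq : 0 < 2 * R - 3 := by linarith
  have hlt1 : (2 * R - 3) * z < 1 := by
    unfold z0 at hz0
    rw [← hRdef, lt_div_iff₀ hq] at hz0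
    linarith
  have hlt : (2 * R - 1) * z ^ 2 < 1 := by
    have h3 : ((2 * R - 3) * z) ^ 2 < 1 := by
      have := pow_lt_pow_left₀ hlt1 (by positivity) (two_ne_zero)
      simpa using this
    have h4 : (2 * R - 1) * z ^ 2 ≤ ((2 * R - 3) * z) ^ 2 := by
      have : 2 * R - 1 ≤ (2 * R - 3) ^ 2 := by nlinarith
      nlinarith [mul_le_mul_of_nonneg_right this (sq_nonneg z)]
    linarith
  have hpos : 0 < 1 - (2 * R - 1) * z ^ 2 := by linarith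
  apply W_Zr (Φ := 1 / (1 - (2 * R - 1) * z ^ 2)) univ_nv (by positivity)
    (by positivity)
  have hcard : ((Finset.univ : Finset (α × Bool)).card : ℝ) = 2 * R := by
    rw [Finset.card_univ, Fintype.card_prod, Fintype.card_bool]
    push_cast
    ring
  rw [hcard]
  have h3 : 1 / (1 - (2 * R - 1) * z ^ 2) * (1 - (2 * R - 1) * z ^ 2)
      = 1 := one_div_mul_cancel hpos.ne'
  generalize 1 / (1 - (2 * R - 1) * z ^ 2) = q at h3 ⊢
  nlinarith [h3]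

end

end Pool.Agent.Helper35.PX
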