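import Mathlib
import Pool.Agent.Helper35.PX.Assembly
import Pool.Agent.Helper3.PX.LeafV
import Pool.Agent.Helper24.PX.F0
import Pool.Agent.Helper49.PX.Elim
import Pool.Agent.Helper49.PX.Low
import Pool.Agent.Helper88.PX.L
import Pool.Agent.Helper96.PX.Dict

/-!
MP_bec853_al, exactness: the growth rate.
-/

namespace Pool.Agent.Helper35.PX

open FreeGroup Pool.Agent.Helper35.PP Filter
open scoped ENNReal

/-- number of potentially positive elements of length `n` -/
noncomputable def pp (r n : ℕ) : ℕ :=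
  {u : FreeGroup (Fin r) | u.norm = n ∧
    ∃ f : FreeGroup (Fin r) ≃* FreeGroup (Fin r), ∀ x ∈ (f u).toWord, x.2 = true}.ncard

lemma pp_le (hC : StmtBCC) {r : ℕ} (hr : 100 ≤ r) {L : ℝ} (hL : 2 * (r : ℝ) - 3 < L) :
    ∃ C : ℝ, 1 ≤ C ∧ ∀ n, (pp r n : ℝ) ≤ C * L ^ n := by
  have hcard : Fintype.card (Fin r) = r := Fintype.card_fin r
  have hR : (100 : ℝ) ≤ r := by exact_mod_cast hr
  have hL0 : 0 < L := by linarith
  set z : ℝ := 1 / L with hz
  have hz0 : 0 < z := by positivity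
  have hzlt : z < z0 (Fin r) := by
    unfold z0
    rw [hcard, hz]
    exact one_div_lt_one_div_of_lt (by linarith) hL
  have hW := W_allX_lt_top Pool.Agent.Helper3.PX.stmtB hC Pool.Agent.Helper49.PX.stmtElimF
    Pool.Agent.Helper49.PX.stmtElimP Pool.Agent.Helper24.PX.stmtF0 Pool.Agent.Helper88.PX.stmtL
    Pool.Agent.Helper96.PX.stmtDict (α := Fin r) (by rw [hcard]; exact hr) hz0 hzlt
  set S : Set (List (Fin r × Bool)) := {w | ∃ u : FreeGroup (Fin r), AdmX u ∧ w = u.toWord} with hS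
  set Wt := W (ENNReal.ofReal z) S with hWt
  refine ⟨max 1 Wt.toReal, le_max_left _ _, ?_⟩
  intro n
  have h1 := ncard_mul_pow_le (ENNReal.ofReal z) S n
  have h2 : pp r n ≤ (S ∩ {w | w.length = n}).ncard := by
    unfold pp
    have hfin : (S ∩ {w : List (Fin r × Bool) | w.length = n}).Finite :=
      (List.finite_length_eq _ n).subset Set.inter_subset_right
    apply Set.ncard_le_ncard_of_injOn FreeGroup.toWord _ FreeGroup.toWord_injective.injOn hfin
    rintro u ⟨hu1, f, hf⟩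
    exact ⟨⟨u, admX_of_pos f hf, rfl⟩, hu1⟩
  have h3 : ((pp r n : ℕ) : ENNReal) * ENNReal.ofReal z ^ n ≤ Wt := by
    refine le_trans ?_ h1
    gcongr
  have h4 : (pp r n : ℝ) * z ^ n ≤ Wt.toReal := by
    have := ENNReal.toReal_mono hW.ne h3
    rw [ENNReal.toReal_mul, ENNReal.toReal_natCast, ENNReal.toReal_pow,
      ENNReal.toReal_ofReal hz0.le] at this
    exact this
  rw [hz, one_div, inv_pow, ← div_eq_mul_inv, div_le_iff₀ (by positivity)] at h4
  exact h4.trans (mul_le_mul_of_nonneg_right (le_max_right _ _) (by positivity))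

lemma pp_ge {r : ℕ} (hr : 2 ≤ r) (n : ℕ) : (2 * (r : ℝ) - 3) ^ n ≤ pp r (n + 1) := by
  have h1 := Pool.Agent.Helper49.PX.stmtLow r n hr
  have h2 : ((2 * r - 3 : ℕ) : ℝ) = 2 * (r : ℝ) - 3 := by
    rw [Nat.cast_sub (by omega)]
    push_cast
    ring
  rw [← h2]
  unfold pp
  exact_mod_cast h1

/-- **Growth rate.** -/
theorem tendsto_pp (hC : StmtBCC) {r : ℕ} (hr : 100 ≤ r) :
    Tendsto (fun n : ℕ => (pp r n : ℝ) ^ ((1 : ℝ) / n)) atTop (nhds (2 * r - 3)) := by
  have hR : (100 : ℝ) ≤ r := by exact_mod_cast hr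
  set L : ℝ := 2 * r - 3 with hLdef
  have hL0 : 0 < L := by rw [hLdef]; linarith
  have hconst : ∀ c : ℝ, 0 < c → Tendsto (fun n : ℕ => c ^ ((1 : ℝ) / n)) atTop (nhds 1) := by
    intro c hc
    have h1 : Tendsto (fun n : ℕ => c ^ ((1 : ℝ) / n)) atTop (nhds (c ^ (0 : ℝ))) :=
      ((Real.continuousAt_const_rpow hc.ne').tendsto).comp tendsto_one_div_atTop_nhds_zero_nat
    rwa [Real.rpow_zero] at h1
  rw [tendsto_order]
  constructor
  · intro a ha
    have h1 : Tendsto (fun n : ℕ => L * (L⁻¹) ^ ((1 : ℝ) / n)) atTop (nhds L) := by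
      have := (hconst L⁻¹ (by positivity)).const_mul L
      rwa [mul_one] at this
    filter_upwards [h1.eventually_const_lt ha, eventually_gt_atTop 0] with n hn hn0
    refine lt_of_lt_of_le hn ?_
    obtain ⟨m, rfl⟩ : ∃ m, n = m + 1 := ⟨n - 1, by omega⟩
    have h2 := pp_ge (r := r) (by omega) m
    rw [← hLdef] at h2
    have hn' : (0 : ℝ) < ((m + 1 : ℕ) : ℝ) := by positivity
    calc L * (L⁻¹) ^ ((1 : ℝ) / ((m + 1 : ℕ) : ℝ))
        = (L ^ (m + 1) * L⁻¹) ^ ((1 : ℝ) / ((m + 1 : ℕ) : ℝ)) := by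
          rw [Real.mul_rpow (by positivity) (by positivity), ← Real.rpow_natCast,
            ← Real.rpow_mul hL0.le, mul_one_div_cancel hn'.ne', Real.rpow_one]
      _ = (L ^ m) ^ ((1 : ℝ) / ((m + 1 : ℕ) : ℝ)) := by
          rw [pow_succ, mul_assoc, mul_inv_cancel₀ hL0.ne', mul_one]
      _ ≤ _ := Real.rpow_le_rpow (by positivity) h2 (by positivity)
  · intro b hb
    obtain ⟨C, hC1, hle⟩ := pp_le hC hr (L := (L + b) / 2) (by rw [← hLdef]; linarith)
    have hC0 : 0 < C := lt_of_lt_of_le one_pos hC1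
    have hM0 : 0 < (L + b) / 2 := by linarith
    have h1 : Tendsto (fun n : ℕ => C ^ ((1 : ℝ) / n) * ((L + b) / 2)) atTop
        (nhds ((L + b) / 2)) := by
      have := (hconst C hC0).mul_const ((L + b) / 2)
      rwa [one_mul] at this
    filter_upwards [h1.eventually_lt_const (show (L + b) / 2 < b by linarith),
      eventually_gt_atTop 0] with n hn hn0
    refine lt_of_le_of_lt ?_ hn
    have hn' : (0 : ℝ) < n := by exact_mod_cast hn0
    calc (pp r n : ℝ) ^ ((1 : ℝ) / n) ≤ (C * ((L + b) / 2) ^ n) ^ ((1 : ℝ) / n) :=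
          Real.rpow_le_rpow (by positivity) (hle n) (by positivity)
      _ = C ^ ((1 : ℝ) / n) * ((L + b) / 2) := by
          rw [Real.mul_rpow hC0.le (by positivity), ← Real.rpow_natCast, ← Real.rpow_mul hM0.le,
            mul_one_div_cancel hn'.ne', Real.rpow_one]

end Pool.Agent.Helper35.PX
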