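import Pool.Agent.Helper7.PX.Goals2

/-!
# Packet PX-ZB: isolated primes in prescribed blocks, real form
-/

set_option autoImplicit false

open Finset Filter Topology

open scoped Classical

namespace Pool.Agent.Helper35.PX

open Pool.Agent.Helper7.PX

/-- for large `x`: `log x` and `log log x` are comparable with those of the integer part of `x / d`. -/
lemma log_floor {x : ℝ} (hx : 16 ≤ x) {x' : ℕ} (h1 : x / 4 ≤ (x' : ℝ)) (h2 : (x' : ℝ) ≤ x) :
    Real.log x' ≤ Real.log x ∧ Real.log x ≤ 2 * Real.log x' := by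
  have hx0 : (0 : ℝ) < x := by linarith
  have hx'0 : (0 : ℝ) < x' := by linarith
  refine ⟨Real.log_le_log hx'0 h2, ?_⟩
  have h3 : x ≤ (x' : ℝ) ^ 2 := by nlinarith
  have h4 := Real.log_le_log hx0 h3
  rw [Real.log_pow] at h4
  push_cast at h4
  exact h4

lemma loglog_floor {u v : ℝ} (hv : 0 < v) (huv : u ≤ 2 * v) (hu : 1 ≤ u)
    (hbig : 2 ≤ Real.log u) : Real.log u / 2 ≤ Real.log v := by
  have h1 : Real.log u ≤ Real.log (2 * v) := Real.log_le_log (by linarith) huv
  rw [Real.log_mul (by norm_num) hv.ne'] at h1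
  have h2 : Real.log 2 < 1 := by
    have := Real.log_two_lt_d9
    linarith
  linarith

/-- the primes of the window `(n, n + L log x]` are in the blocks -/
lemma wd_use {x' n : ℕ} {lam : ℝ} {H : Finset ℕ} {l : ℕ} (hW : Wd x' n lam H l) {q : ℕ}
    (hq : q.Prime) (hn : n < q) (hle : (q : ℝ) ≤ n + lam * Real.log x') :
    ∃ h ∈ H, n + h < q ∧ q ≤ n + h + l := by
  have h1 : q - n ∈ Icc 1 ⌊lam * Real.log x'⌋₊ := by
    rw [mem_Icc]
    refine ⟨by omega, Nat.le_floor ?_⟩
    rw [Nat.cast_sub hn.le]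
    linarith
  have h2 : n + (q - n) = q := by omega
  obtain ⟨h, hh, hj⟩ := hW (q - n) h1 (by rw [h2]; exact hq)
  rw [mem_Ioc] at hj
  exact ⟨h, hh, by omega, by omega⟩

lemma pc_eq_np {x x' : ℝ} {n h l : ℕ} {ε : ℝ} (_hx : x' ≤ x) (hl : l ≤ ⌊ε * Real.log x⌋₊)
    (hin : ∀ q : ℕ, q.Prime → n + h < q → q ≤ n + h + ⌊ε * Real.log x⌋₊ → q ≤ n + h + l) :
    pc (n + h) (ε * Real.log x) = np n h l := by
  unfold pc np
  symm
  refine card_bij (fun j _ => n + j) ?_ ?_ ?_
  · intro j hj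
    rw [mem_filter, mem_Ioc] at hj ⊢
    exact ⟨⟨by omega, by omega⟩, hj.2⟩
  · intro a _ b _ hab
    exact Nat.add_left_cancel hab
  · intro q hq
    rw [mem_filter, mem_Ioc] at hq
    have h1 := hin q hq.2 hq.1.1 hq.1.2
    refine ⟨q - n, ?_, by omega⟩
    rw [mem_filter, mem_Ioc]
    refine ⟨⟨by omega, by omega⟩, ?_⟩
    have : n + (q - n) = q := by omega
    rw [this]; exact hq.2

theorem zb (hFB : StmtFB) : StmtZB := by
  obtain ⟨c, C, hc, hC, hF⟩ := hFB
  refine ⟨c / 8, 2 * C, by positivity, ?_⟩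
  intro k ε hk hε hε1
  obtain ⟨lam0, x0, hF⟩ := hF k ε hk hε hε1
  have hll : Tendsto (fun x : ℝ => Real.log (Real.log x)) atTop atTop :=
    Real.tendsto_log_atTop.comp Real.tendsto_log_atTop
  have hev : ∀ᶠ x : ℝ in atTop, 16 ≤ x ∧ (x0 : ℝ) + 1 ≤ x ∧
      max (4 * (2 + |lam0|) / c) 2 ≤ Real.log (Real.log x) :=
    (eventually_ge_atTop 16).and ((eventually_ge_atTop _).and
      (hll.eventually_ge_atTop _))
  obtain ⟨X, hX⟩ := Filter.eventually_atTop.1 hev
  refine ⟨1 + Real.exp (C * (2 + |lam0|)), X, ?_⟩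
  intro x hx L hL hLc H hH hHL hsep
  obtain ⟨hx16, hx0, hxl⟩ := hX x hx
  have hxl1 : 4 * (2 + |lam0|) / c ≤ Real.log (Real.log x) := (le_max_left _ _).trans hxl
  have hxl2 : 2 ≤ Real.log (Real.log x) := (le_max_right _ _).trans hxl
  have hxpos : (0 : ℝ) < x := by linarith
  set x' : ℕ := ⌊x⌋₊ with hx'
  have hfl1 : (x' : ℝ) ≤ x := Nat.floor_le hxpos.le
  have hfl2 : x < (x' : ℝ) + 1 := Nat.lt_floor_add_one x
  obtain ⟨hlog1, hlog2⟩ := log_floor hx16 (x' := x') (by linarith) hfl1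
  have hlogx1 : 1 ≤ Real.log x := by
    by_contra hcon
    push Not at hcon
    have h0 : 0 ≤ Real.log x := Real.log_nonneg (by linarith)
    have : Real.log (Real.log x) ≤ 0 := Real.log_nonpos h0 hcon.le
    linarith
  have hlogx' : 0 < Real.log x' := by linarith
  have hll' := loglog_floor hlogx' hlog2 hlogx1 hxl2
  have hlam0 : 0 ≤ |lam0| := abs_nonneg _
  set lam : ℝ := 2 * L + 2 + |lam0| with hlam
  have hge : lam0 ≤ lam := by
    have := le_abs_self lam0
    linarith
  have hle : lam ≤ c * Real.log (Real.log x') := by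
    have h1 : 2 + |lam0| ≤ c / 4 * Real.log (Real.log x) := by
      rw [div_le_iff₀ hc] at hxl1
      linarith
    have h2 : c * (Real.log (Real.log x) / 2) ≤ c * Real.log (Real.log x') :=
      mul_le_mul_of_nonneg_left hll' hc.le
    linarith
  have hHlam : ∀ h ∈ H, (h : ℝ) + ε * Real.log x ≤ lam * Real.log x' := by
    intro h hh
    have h1 := hHL h hh
    have h2 : L * Real.log x ≤ L * (2 * Real.log x') := mul_le_mul_of_nonneg_left hlog2 hL
    have h3 : ε * Real.log x ≤ 1 * (2 * Real.log x') :=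
      mul_le_mul hε1 hlog2 (by linarith) (by norm_num)
    have h4 : 0 ≤ |lam0| * Real.log x' := by positivity
    have h5 : lam * Real.log x' = L * (2 * Real.log x') + 1 * (2 * Real.log x')
        + |lam0| * Real.log x' := by rw [hlam]; ring
    rw [h5]
    linarith
  have hεlog : ε * Real.log x' ≤ ε * Real.log x := mul_le_mul_of_nonneg_left hlog1 hε.le
  have hx'0 : x0 ≤ x' := by
    have h1 : (x0 : ℝ) ≤ x' := by linarith
    exact_mod_cast h1
  have hCk : C * (k : ℝ) ^ 2 ≤ H.card := by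
    have : 0 ≤ C * (k : ℝ) ^ 2 := by positivity
    linarith
  have key := hF x' hx'0 lam hge hle H hCk
    (fun h hh => by have := hHlam h hh; linarith)
    (fun h hh h' hh' hlt => by have := hsep h hh h' hh' hlt; linarith)
  set l : ℕ := ⌊ε * Real.log x'⌋₊ with hl
  have hl1 : (l : ℝ) ≤ ε * Real.log x' := Nat.floor_le (by positivity)
  have hl2 : l ≤ ⌊ε * Real.log x⌋₊ := Nat.floor_le_floor hεlog
  have hfloorx : ((⌊ε * Real.log x⌋₊ : ℕ) : ℝ) ≤ ε * Real.log x := Nat.floor_le (by positivity)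
  -- the quantities
  have hquant : x * Real.exp (-((1 + Real.exp (C * (2 + |lam0|))) * Real.exp (2 * C * L)))
      ≤ (x' : ℝ) * Real.exp (-Real.exp (C * lam)) := by
    have h1 : Real.exp (C * lam) = Real.exp (C * (2 + |lam0|)) * Real.exp (2 * C * L) := by
      rw [← Real.exp_add]; congr 1; rw [hlam]; ring
    have h2 : (1 : ℝ) ≤ Real.exp (2 * C * L) := Real.one_le_exp (by positivity)
    have h3 : -((1 + Real.exp (C * (2 + |lam0|))) * Real.exp (2 * C * L))
        ≤ -1 + -Real.exp (C * lam) := by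
      rw [h1]; nlinarith
    have h4 : Real.exp (-((1 + Real.exp (C * (2 + |lam0|))) * Real.exp (2 * C * L)))
        ≤ Real.exp (-1) * Real.exp (-Real.exp (C * lam)) := by
      rw [← Real.exp_add]; exact Real.exp_le_exp.2 h3
    have h5 : Real.exp (-1) ≤ 1 / 2 := by
      rw [Real.exp_neg]
      have : (2 : ℝ) ≤ Real.exp 1 := by
        have := Real.add_one_le_exp (1 : ℝ)
        linarith
      rw [one_div]
      exact inv_anti₀ (by norm_num) this
    have h6 : 0 < Real.exp (-Real.exp (C * lam)) := Real.exp_pos _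
    calc x * Real.exp (-((1 + Real.exp (C * (2 + |lam0|))) * Real.exp (2 * C * L)))
        ≤ x * (1 / 2 * Real.exp (-Real.exp (C * lam))) := by
          refine mul_le_mul_of_nonneg_left (h4.trans ?_) hxpos.le
          exact mul_le_mul_of_nonneg_right h5 h6.le
      _ = (x / 2) * Real.exp (-Real.exp (C * lam)) := by ring
      _ ≤ _ := mul_le_mul_of_nonneg_right (by linarith) h6.le
  refine hquant.trans (key.trans ?_)
  have hfin : ({n : ℕ | (n : ℝ) ≤ x ∧
    (∀ q : ℕ, q.Prime → n < q → (q : ℝ) ≤ n + L * Real.log x →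
      ∃ h ∈ H, n + h < q ∧ (q : ℝ) ≤ n + h + ε * Real.log x) ∧
    (∀ h ∈ H, pc (n + h) (ε * Real.log x) ≤ 1) ∧
    k + 1 ≤ ∑ h ∈ H, pc (n + h) (ε * Real.log x)} : Set ℕ).Finite := by
    refine (Set.finite_Iic x').subset ?_
    intro n hn
    exact Nat.le_floor hn.1
  have hcard : ∀ S : Finset ℕ, S.card = ((S : Set ℕ)).ncard := fun S =>
    (Set.ncard_coe_finset S).symm
  rw [hcard]
  refine Nat.cast_le.2 (Set.ncard_le_ncard ?_ hfin)
  intro n hn
  rw [mem_coe, mem_filter, mem_Ioc] at hn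
  obtain ⟨⟨_, hnx⟩, hW, hone, hsum⟩ := hn
  have hin : ∀ h ∈ H, ∀ q : ℕ, q.Prime → n + h < q → q ≤ n + h + ⌊ε * Real.log x⌋₊ →
      q ≤ n + h + l := by
    intro h hh q hq h1 h2
    have h2' : (q : ℝ) ≤ (n : ℝ) + h + ⌊ε * Real.log x⌋₊ := by exact_mod_cast h2
    have h3 := hHlam h hh
    obtain ⟨h', hh', h4, h5⟩ := wd_use hW hq (by omega) (by linarith)
    have h5' : (q : ℝ) ≤ (n : ℝ) + h' + l := by exact_mod_cast h5
    have h4' : (n : ℝ) + h' < q := by exact_mod_cast h4
    have h1' : (n : ℝ) + h < q := by exact_mod_cast h1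
    have heq : h' = h := by
      rcases lt_trichotomy h' h with hlt | heq | hgt
      · have := hsep h' hh' h hh hlt
        exfalso
        linarith
      · exact heq
      · have := hsep h hh h' hh' hgt
        exfalso
        linarith
    rw [heq] at h5
    exact h5
  have hpc : ∀ h ∈ H, pc (n + h) (ε * Real.log x) = np n h l := fun h hh =>
    pc_eq_np (x' := x') hfl1 hl2 (hin h hh)
  refine ⟨?_, ?_, ?_, ?_⟩
  · have : (n : ℝ) ≤ x' := by exact_mod_cast hnx
    linarith
  · intro q hq h1 h2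
    have h3 : L * Real.log x ≤ lam * Real.log x' := by
      have h4 : L * Real.log x ≤ L * (2 * Real.log x') := mul_le_mul_of_nonneg_left hlog2 hL
      have h5 : lam * Real.log x' = L * (2 * Real.log x') + (2 + |lam0|) * Real.log x' := by
        rw [hlam]; ring
      have h6 : 0 ≤ (2 + |lam0|) * Real.log x' := by positivity
      rw [h5]; linarith
    obtain ⟨h, hh, h4, h5⟩ := wd_use hW hq h1 (by linarith)
    refine ⟨h, hh, h4, ?_⟩
    have h5' : (q : ℝ) ≤ (n : ℝ) + h + l := by exact_mod_cast h5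
    linarith
  · intro h hh
    rw [hpc h hh]
    exact hone h hh
  · rw [sum_congr rfl hpc]
    exact hsum

end Pool.Agent.Helper35.PX
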