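import Pool.Agent.Helper35.PX.ZB

/-!
# Packet PX-ZC: exactly `k` primes in `(m, m + L log x]`, and an empty interval before it
-/

set_option autoImplicit false

open Finset Filter Topology

open scoped Classical

namespace Pool.Agent.Helper35.PX

open Pool.Agent.Helper7.PX

/-- The number of primes in `(n, n + s]`. -/
def cnt (n s : ℕ) : ℕ := ((Ioc n (n + s)).filter Nat.Prime).card

lemma cnt_zero (n : ℕ) : cnt n 0 = 0 := by simp [cnt]

lemma cnt_succ (n s : ℕ) : cnt n (s + 1) = cnt n s + if (n + (s + 1)).Prime then 1 else 0 := by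
  unfold cnt
  have h1 : Ioc n (n + (s + 1)) = insert (n + (s + 1)) (Ioc n (n + s)) := by
    ext a
    simp only [mem_insert, mem_Ioc]
    omega
  have h2 : n + (s + 1) ∉ Ioc n (n + s) := by
    simp only [mem_Ioc]
    omega
  rw [h1, filter_insert]
  split_ifs with hp
  · rw [card_insert_of_notMem]
    intro hmem
    exact h2 (mem_filter.1 hmem).1
  · simp

lemma cnt_mono (n : ℕ) : Monotone (cnt n) := by
  refine monotone_nat_of_le_succ fun s => ?_
  rw [cnt_succ]
  exact Nat.le_add_right _ _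

/-- the point of the `(k+1)`-st prime -/
lemma exists_point {n T k : ℕ} (h : k + 1 ≤ cnt n T) :
    ∃ b : ℕ, 1 ≤ b ∧ b ≤ T ∧ (n + b).Prime ∧ cnt n (b - 1) = k := by
  have hex : ∃ b, k + 1 ≤ cnt n b := ⟨T, h⟩
  refine ⟨Nat.find hex, ?_, Nat.find_min' hex h, ?_, ?_⟩
  · by_contra hcon
    have h0 : Nat.find hex = 0 := by omega
    have := Nat.find_spec hex
    rw [h0, cnt_zero] at this
    omega
  all_goals
    have hpos : 1 ≤ Nat.find hex := by
      by_contra hcon
      have h0 : Nat.find hex = 0 := by omega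
      have := Nat.find_spec hex
      rw [h0, cnt_zero] at this
      omega
    obtain ⟨t, ht⟩ : ∃ t, Nat.find hex = t + 1 := ⟨Nat.find hex - 1, by omega⟩
    have h1 := Nat.find_spec hex
    have h2 : ¬ k + 1 ≤ cnt n t := Nat.find_min hex (by omega)
    rw [ht, cnt_succ] at h1
    rw [ht]
  · by_contra hcon
    rw [if_neg hcon] at h1
    exact h2 (by omega)
  · rw [Nat.add_sub_cancel]
    split_ifs at h1 with hp
    · omega
    · omega

/-- if there is no prime in `(n + s, n + t]` then the counts agree -/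
lemma cnt_eq {n s t : ℕ} (hst : s ≤ t) (h : ∀ j, s < j → j ≤ t → ¬ (n + j).Prime) :
    cnt n s = cnt n t := by
  induction t, hst using Nat.le_induction with
  | base => rfl
  | succ t hst ih =>
    rw [cnt_succ, if_neg (h (t + 1) (by omega) le_rfl), add_zero]
    exact ih fun j h1 h2 => h j h1 (by omega)

/-- the pure combinatorial part: for a good `n` and all `s` of `[b - D, b)` the window is right -/
lemma window {n h0 l M D M1 W k : ℕ}
    (hblock : ∀ q : ℕ, q.Prime → n < q → q ≤ n + W → n + h0 < q ∧ q ≤ n + h0 + l)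
    (_hW : h0 + l ≤ W)
    (hsp : ∀ i j : ℕ, 1 ≤ i → i < j → j ≤ W → (n + i).Prime → (n + j).Prime → D ≤ j - i)
    (hlM : l ≤ M) (hM1 : M ≤ M1) (hh0 : M + M1 + D ≤ h0) {b : ℕ} (_hb1 : 1 ≤ b) (hbW : b ≤ W)
    (hbp : (n + b).Prime) (hbk : cnt n (b - 1) = k) {s : ℕ} (hs1 : b ≤ s + D) (hs2 : s < b) :
    n ≤ n + s - M ∧ n + s - M ≤ n + W ∧ cnt (n + s - M) M = k ∧
      (∀ q : ℕ, q.Prime → n + s - M < q + M1 → n + s - M < q) := by
  have hb2 := hblock (n + b) hbp (by omega) (by omega)
  have hscnt : cnt n s = k := by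
    rw [← hbk]
    refine cnt_eq (by omega) ?_
    intro j hj1 hj2 hjp
    have := hsp j b (by omega) (by omega) hbW hjp hbp
    omega
  have hsM : M ≤ s := by omega
  refine ⟨by omega, by omega, ?_, ?_⟩
  · rw [← hscnt]
    unfold cnt
    congr 1
    ext q
    rw [mem_filter, mem_filter, mem_Ioc, mem_Ioc]
    constructor
    · rintro ⟨⟨h1, h2⟩, hq⟩
      exact ⟨⟨by omega, by omega⟩, hq⟩
    · rintro ⟨⟨h1, h2⟩, hq⟩
      have := hblock q hq h1 (by omega)
      exact ⟨⟨by omega, by omega⟩, hq⟩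
  · intro q hq hq1
    by_contra hcon
    push Not at hcon
    have h1 : n < q := by omega
    have := hblock q hq h1 (by omega)
    omega

/-- the double counting -/
lemma double_count {Gd S : Finset ℕ} {b : ℕ → ℕ} {D M T : ℕ}
    (hb : ∀ n ∈ Gd, D + M ≤ b n) (hbT : ∀ n ∈ Gd, b n ≤ T)
    (hS : ∀ n ∈ Gd, ∀ s, b n ≤ s + D → s < b n → n + s - M ∈ S) :
    Gd.card * D ≤ S.card * (T + 1) := by
  refine card_mul_le_card_mul (fun n m => ∃ s, b n ≤ s + D ∧ s < b n ∧ m = n + s - M) ?_ ?_
  · intro n hn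
    have h1 : ((Ico (b n - D) (b n)).image (fun s => n + s - M)) ⊆
        bipartiteAbove (fun n m => ∃ s, b n ≤ s + D ∧ s < b n ∧ m = n + s - M) S n := by
      intro m hm
      rw [mem_image] at hm
      obtain ⟨s, hs, rfl⟩ := hm
      rw [mem_Ico] at hs
      rw [mem_bipartiteAbove]
      exact ⟨hS n hn s (by omega) hs.2, s, by omega, hs.2, rfl⟩
    have h2 : ((Ico (b n - D) (b n)).image (fun s => n + s - M)).card = D := by
      rw [card_image_of_injOn]
      · rw [Nat.card_Ico]
        have := hb n hn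
        omega
      · intro a ha c hc hac
        have h3 := hb n hn
        simp only [coe_Ico, Set.mem_Ico] at ha hc
        have hac' : n + a - M = n + c - M := hac
        omega
    calc D = _ := h2.symm
      _ ≤ _ := card_le_card h1
  · intro m _
    have h1 : bipartiteBelow (fun n m => ∃ s, b n ≤ s + D ∧ s < b n ∧ m = n + s - M) Gd m ⊆
        Icc (m - T) m := by
      intro n hn
      rw [mem_bipartiteBelow] at hn
      obtain ⟨hnG, s, h2, h3, h4⟩ := hn
      have h5 := hb n hnG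
      have h6 := hbT n hnG
      rw [mem_Icc]
      omega
    refine (card_le_card h1).trans ?_
    rw [Nat.card_Icc]
    omega

lemma np_le_cnt {n h l W : ℕ} (h1 : h + l ≤ W) : np n h l ≤ cnt n W := by
  unfold np cnt
  refine card_le_card_of_injOn (fun j => n + j) ?_ ?_
  · intro j hj
    rw [mem_coe, mem_filter, mem_Ioc] at hj
    show n + j ∈ _
    rw [mem_coe, mem_filter, mem_Ioc]
    exact ⟨⟨by omega, by omega⟩, hj.2⟩
  · intro a _ b _ hab
    exact Nat.add_left_cancel hab

theorem zc (hFC : StmtFC2) : StmtZC := by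
  obtain ⟨c, C, hc, hC, hF⟩ := hFC
  refine ⟨c / 24, 6 * C + 1, by positivity, ?_⟩
  intro k ε hε
  obtain ⟨δ, lam0, x0, hδ, hF⟩ := hF k (min (ε / 4) 1) (by positivity) (min_le_right _ _)
  set ε' : ℝ := min (ε / 4) 1 with hε'
  have hε'0 : 0 < ε' := by positivity
  have hε'1 : ε' ≤ 1 := min_le_right _ _
  have hε'2 : ε' ≤ ε / 4 := min_le_left _ _
  set δ' : ℝ := min δ ε with hδ'
  have hδ'0 : 0 < δ' := by positivity
  have hδ'1 : δ' ≤ δ := min_le_left _ _
  have hδ'2 : δ' ≤ ε := min_le_right _ _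
  have hll : Tendsto (fun x : ℝ => Real.log (Real.log x)) atTop atTop :=
    Real.tendsto_log_atTop.comp Real.tendsto_log_atTop
  have hsq : ∀ᶠ x : ℝ in atTop, c * Real.log x ^ 2 ≤ x / 2 := by
    have h1 := (Real.isLittleO_pow_log_id_atTop (n := 2)).def (c := 1 / (2 * c)) (by positivity)
    filter_upwards [h1, eventually_ge_atTop (0 : ℝ)] with x hx hx0
    rw [Real.norm_eq_abs, Real.norm_eq_abs, id, abs_of_nonneg hx0,
      abs_of_nonneg (sq_nonneg _)] at hx
    calc c * Real.log x ^ 2 ≤ c * (1 / (2 * c) * x) := mul_le_mul_of_nonneg_left hx hc.le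
      _ = x / 2 := by field_simp
  have hev : ∀ᶠ x : ℝ in atTop, 16 ≤ x ∧ (4 * x0 : ℝ) ≤ x ∧ c * Real.log x ^ 2 ≤ x / 2 ∧
      max (4 / δ') 2 ≤ Real.log x ∧ max (4 * (3 + |lam0|) / c) 2 ≤ Real.log (Real.log x) :=
    (eventually_ge_atTop 16).and ((eventually_ge_atTop _).and
      (hsq.and ((Real.tendsto_log_atTop.eventually_ge_atTop _).and
      (hll.eventually_ge_atTop _))))
  obtain ⟨X, hX⟩ := Filter.eventually_atTop.1 hev
  refine ⟨Real.exp (C * (3 + |lam0|)) + 6 + (3 + |lam0|) + 16 / δ', X, ?_⟩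
  intro x hx L hεL hLc
  obtain ⟨hx16, hx0, hxsq, hxlog, hxl⟩ := hX x hx
  have hxl1 : 4 * (3 + |lam0|) / c ≤ Real.log (Real.log x) := (le_max_left _ _).trans hxl
  have hxl2 : 2 ≤ Real.log (Real.log x) := (le_max_right _ _).trans hxl
  have hxlogδ : 4 / δ' ≤ Real.log x := (le_max_left _ _).trans hxlog
  have hlogx2 : 2 ≤ Real.log x := (le_max_right _ _).trans hxlog
  have hxpos : (0 : ℝ) < x := by linarith
  have hL : 0 < L := lt_of_lt_of_le hε hεL
  set x' : ℕ := ⌊x / 2⌋₊ with hx'
  have hfl1 : (x' : ℝ) ≤ x / 2 := Nat.floor_le (by positivity)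
  have hfl2 : x / 2 < (x' : ℝ) + 1 := Nat.lt_floor_add_one _
  have hfl3 : x / 4 ≤ (x' : ℝ) := by linarith
  obtain ⟨hlog1, hlog2⟩ := log_floor hx16 (x' := x') hfl3 (by linarith)
  have hlogx'1 : 1 ≤ Real.log x' := by linarith
  have hlogx' : 0 < Real.log x' := by linarith
  have hll' := loglog_floor hlogx' hlog2 (by linarith) hxl2
  have hlam0 : 0 ≤ |lam0| := abs_nonneg _
  set lam : ℝ := 6 * L + (3 + |lam0|) with hlam
  have hlam3 : 3 ≤ lam := by linarith
  have hge : lam0 ≤ lam := by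
    have := le_abs_self lam0
    linarith
  have hle : lam ≤ c * Real.log (Real.log x') := by
    have h1 : 3 + |lam0| ≤ c / 4 * Real.log (Real.log x) := by
      rw [div_le_iff₀ hc] at hxl1
      linarith
    have h2 : c * (Real.log (Real.log x) / 2) ≤ c * Real.log (Real.log x') :=
      mul_le_mul_of_nonneg_left hll' hc.le
    linarith
  have hx'0 : x0 ≤ x' := by
    have h1 : (x0 : ℝ) ≤ x' := by linarith
    exact_mod_cast h1
  -- the integers
  set M : ℕ := ⌊L * Real.log x⌋₊ with hM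
  have hM1 : (M : ℝ) ≤ L * Real.log x := Nat.floor_le (by positivity)
  have hM2 : L * Real.log x < (M : ℝ) + 1 := Nat.lt_floor_add_one _
  set D : ℕ := ⌊δ' * Real.log x'⌋₊ with hD
  have hD1 : (D : ℝ) ≤ δ' * Real.log x' := Nat.floor_le (by positivity)
  have hD2 : δ' * Real.log x' < (D : ℝ) + 1 := Nat.lt_floor_add_one _
  set l : ℕ := ⌊ε' * Real.log x'⌋₊ with hl
  have hl1 : (l : ℝ) ≤ ε' * Real.log x' := Nat.floor_le (by positivity)
  set W : ℕ := ⌊lam * Real.log x'⌋₊ with hWdef
  have hW1 : (W : ℝ) ≤ lam * Real.log x' := Nat.floor_le (by positivity)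
  set h0 : ℕ := ⌈3 * L * Real.log x⌉₊ + 1 with hh0
  have hh1 : 3 * L * Real.log x + 1 ≤ (h0 : ℝ) := by
    rw [hh0]; push_cast
    have := Nat.le_ceil (3 * L * Real.log x)
    linarith
  have hh2 : (h0 : ℝ) ≤ 3 * L * Real.log x + 2 := by
    rw [hh0]; push_cast
    have := Nat.ceil_lt_add_one (a := 3 * L * Real.log x) (by positivity)
    linarith
  have hlM : l ≤ M := by
    refine Nat.le_floor (hl1.trans ?_)
    exact mul_le_mul (by linarith) hlog1 hlogx'.le hL.le
  have hDM : D ≤ M := by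
    refine Nat.le_floor (hD1.trans ?_)
    exact mul_le_mul (by linarith) hlog1 hlogx'.le hL.le
  have hh3 : M + (M + 1) + D ≤ h0 := by
    have h1 : ((M + (M + 1) + M : ℕ) : ℝ) ≤ h0 := by
      push_cast
      linarith
    have h2 : M + (M + 1) + M ≤ h0 := by exact_mod_cast h1
    omega
  have hh4 : (h0 : ℝ) + ε' * Real.log x' ≤ lam * Real.log x' := by
    have h1 : 3 * L * Real.log x ≤ 3 * L * (2 * Real.log x') :=
      mul_le_mul_of_nonneg_left hlog2 (by positivity)
    have h2 : ε' * Real.log x' ≤ 1 * Real.log x' := mul_le_mul_of_nonneg_right hε'1 hlogx'.le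
    have h3 : 0 ≤ |lam0| * Real.log x' := by positivity
    have h4 : lam * Real.log x' = 3 * L * (2 * Real.log x') + 3 * Real.log x'
        + |lam0| * Real.log x' := by rw [hlam]; ring
    rw [h4]
    linarith
  have hh5 : h0 + l ≤ W := by
    refine Nat.le_floor ?_
    push_cast
    linarith
  have key := (hF x' hx'0 lam hge hle h0 hh4)
  obtain ⟨Gd, hG⟩ : ∃ Gd : Finset ℕ, Gd = (Ioc (x' / 32) x').filter (fun n =>
    Wd x' n lam {h0} ⌊ε' * Real.log x'⌋₊ ∧ k + 1 ≤ np n h0 ⌊ε' * Real.log x'⌋₊ ∧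
    ∀ i j : ℕ, 1 ≤ i → i < j → (j : ℝ) ≤ lam * Real.log x' → (n + i).Prime → (n + j).Prime →
      δ * Real.log x' ≤ (j : ℝ) - i) := ⟨_, rfl⟩
  rw [← hG] at key
  have hblock : ∀ n ∈ Gd, ∀ q : ℕ, q.Prime → n < q → q ≤ n + W → n + h0 < q ∧ q ≤ n + h0 + l := by
    intro n hn q hq h1 h2
    rw [hG, mem_filter] at hn
    have h2' : (q : ℝ) ≤ (n : ℝ) + W := by exact_mod_cast h2
    obtain ⟨h, hh, h3, h4⟩ := wd_use hn.2.1 hq h1 (by linarith)
    rw [mem_singleton] at hh
    subst hh
    exact ⟨h3, h4⟩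
  have hspace : ∀ n ∈ Gd, ∀ i j : ℕ, 1 ≤ i → i < j → j ≤ W → (n + i).Prime → (n + j).Prime →
      D ≤ j - i := by
    intro n hn i j h1 h2 h3 h4 h5
    rw [hG, mem_filter] at hn
    have h3' : (j : ℝ) ≤ W := by exact_mod_cast h3
    have h6 := hn.2.2.2 i j h1 h2 (by linarith) h4 h5
    have h7 : δ' * Real.log x' ≤ δ * Real.log x' := mul_le_mul_of_nonneg_right hδ'1 hlogx'.le
    have h8 : (D : ℝ) ≤ ((j - i : ℕ) : ℝ) := by
      rw [Nat.cast_sub h2.le]
      linarith
    exact_mod_cast h8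
  have hpt : ∀ n ∈ Gd, ∃ b : ℕ, 1 ≤ b ∧ b ≤ W ∧ (n + b).Prime ∧ cnt n (b - 1) = k := by
    intro n hn
    refine exists_point ?_
    rw [hG, mem_filter] at hn
    exact hn.2.2.1.trans (np_le_cnt hh5)
  choose! b hb1 hb2 hb3 hb4 using hpt
  set S : Finset ℕ := (range (⌊x⌋₊ + 1)).filter (fun m => pc m (L * Real.log x) = k ∧
    ∀ q : ℕ, q.Prime → (m : ℝ) - L * Real.log x < q → m < q) with hS
  have hbh : ∀ n ∈ Gd, h0 < b n := by
    intro n hn
    have := (hblock n hn (n + b n) (hb3 n hn) (by have := hb1 n hn; omega)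
      (by have := hb2 n hn; omega)).1
    omega
  have hmem : ∀ n ∈ Gd, ∀ s, b n ≤ s + D → s < b n → n + s - M ∈ S := by
    intro n hn s hs1 hs2
    obtain ⟨h1, h2, h3, h4⟩ := window (hblock n hn) hh5 (hspace n hn) hlM (Nat.le_succ M)
      hh3 (hb1 n hn) (hb2 n hn) (hb3 n hn) (hb4 n hn) hs1 hs2
    have hnx : n ≤ x' := by
      rw [hG, mem_filter, mem_Ioc] at hn
      exact hn.1.2
    rw [hS, mem_filter, mem_range]
    refine ⟨?_, h3, ?_⟩
    · refine Nat.lt_succ_of_le (Nat.le_floor ?_)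
      have h5 : ((n + s - M : ℕ) : ℝ) ≤ (n : ℝ) + W := by exact_mod_cast h2
      have h6 : (n : ℝ) ≤ x' := by exact_mod_cast hnx
      have h7 : lam * Real.log x' ≤ c * Real.log x ^ 2 := by
        have h8 : Real.log (Real.log x') ≤ Real.log x := by
          have h9 := Real.log_le_sub_one_of_pos hlogx'
          linarith
        calc lam * Real.log x' ≤ (c * Real.log (Real.log x')) * Real.log x' :=
              mul_le_mul_of_nonneg_right hle hlogx'.le
          _ ≤ (c * Real.log x) * Real.log x :=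
              mul_le_mul (mul_le_mul_of_nonneg_left h8 hc.le) hlog1 hlogx'.le (by positivity)
          _ = c * Real.log x ^ 2 := by ring
      linarith
    · intro q hq hq1
      refine h4 q hq ?_
      have h5 : ((n + s - M : ℕ) : ℝ) < ((q + (M + 1) : ℕ) : ℝ) := by
        push_cast
        linarith
      exact_mod_cast h5
  have hcount := double_count (Gd := Gd) (S := S) (b := b) (D := D) (M := M) (T := W)
    (fun n hn => by have := hbh n hn; omega) hb2 hmem
  have hcountR : (Gd.card : ℝ) * D ≤ S.card * (W + 1) := by exact_mod_cast hcount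
  -- the final estimate
  have hDl : δ' * Real.log x' / 2 ≤ (D : ℝ) := by
    have h1 : 2 ≤ δ' * Real.log x' := by
      rw [div_le_iff₀ hδ'0] at hxlogδ
      nlinarith
    linarith
  have hWl : (W : ℝ) + 1 ≤ 2 * (lam * Real.log x') := by
    have h1 : 1 ≤ lam * Real.log x' := by nlinarith
    linarith
  set E : ℝ := Real.exp (-Real.exp (C * lam)) with hE
  have hE0 : 0 < E := Real.exp_pos _
  have hGl : x / 4 * E ≤ (Gd.card : ℝ) := by
    refine le_trans ?_ key
    exact mul_le_mul_of_nonneg_right hfl3 hE0.le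
  have hSl : x * (E * (δ' / (16 * lam))) ≤ (S.card : ℝ) := by
    have h1 : (x / 4 * E) * (δ' * Real.log x' / 2) ≤ S.card * (2 * (lam * Real.log x')) := by
      calc (x / 4 * E) * (δ' * Real.log x' / 2) ≤ Gd.card * D :=
            mul_le_mul hGl hDl (by positivity) (by positivity)
        _ ≤ S.card * (W + 1) := hcountR
        _ ≤ _ := mul_le_mul_of_nonneg_left hWl (by positivity)
    have h2 : 0 < 2 * (lam * Real.log x') := by positivity
    rw [← div_le_iff₀ h2] at h1
    refine le_trans (le_of_eq ?_) h1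
    field_simp
    ring
  have hexp : Real.exp (-((Real.exp (C * (3 + |lam0|)) + 6 + (3 + |lam0|) + 16 / δ') *
      Real.exp ((6 * C + 1) * L))) ≤ E * (δ' / (16 * lam)) := by
    have h1 : 1 ≤ Real.exp ((6 * C + 1) * L) := Real.one_le_exp (by positivity)
    have h2 : L ≤ Real.exp ((6 * C + 1) * L) := by
      have h3 : Real.exp L ≤ Real.exp ((6 * C + 1) * L) := by
        refine Real.exp_le_exp.2 ?_
        nlinarith [mul_pos hC hL]
      have h4 := Real.add_one_le_exp L
      linarith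
    have h3 : Real.exp (C * lam) ≤ Real.exp (C * (3 + |lam0|)) * Real.exp ((6 * C + 1) * L) := by
      rw [← Real.exp_add]
      refine Real.exp_le_exp.2 ?_
      rw [hlam]
      nlinarith
    have h4 : Real.exp (-(lam + 16 / δ')) ≤ δ' / (16 * lam) := by
      rw [Real.exp_neg, ← one_div, div_le_div_iff₀ (Real.exp_pos _) (by positivity)]
      have h5 : 16 / δ' ≤ Real.exp (16 / δ') := by
        have := Real.add_one_le_exp (16 / δ')
        linarith
      have h6 : lam ≤ Real.exp lam := by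
        have := Real.add_one_le_exp lam
        linarith
      have h7 : (16 / δ') * lam ≤ Real.exp (16 / δ') * Real.exp lam :=
        mul_le_mul h5 h6 (by linarith) (Real.exp_pos _).le
      rw [one_mul, Real.exp_add]
      calc 16 * lam = δ' * ((16 / δ') * lam) := by field_simp
        _ ≤ δ' * (Real.exp (16 / δ') * Real.exp lam) := mul_le_mul_of_nonneg_left h7 hδ'0.le
        _ = δ' * (Real.exp lam * Real.exp (16 / δ')) := by ring
    calc Real.exp (-((Real.exp (C * (3 + |lam0|)) + 6 + (3 + |lam0|) + 16 / δ') *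
      Real.exp ((6 * C + 1) * L))) ≤ Real.exp (-Real.exp (C * lam) + -(lam + 16 / δ')) := by
          refine Real.exp_le_exp.2 ?_
          have h5 : lam ≤ (6 + (3 + |lam0|)) * Real.exp ((6 * C + 1) * L) := by
            rw [hlam]
            nlinarith
          have h6 : 16 / δ' ≤ 16 / δ' * Real.exp ((6 * C + 1) * L) :=
            le_mul_of_one_le_right (by positivity) h1
          nlinarith
      _ = E * Real.exp (-(lam + 16 / δ')) := by rw [Real.exp_add]
      _ ≤ _ := mul_le_mul_of_nonneg_left h4 hE0.le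
  have hfin : ({n : ℕ | (n : ℝ) ≤ x ∧ pc n (L * Real.log x) = k ∧
    ∀ q : ℕ, q.Prime → (n : ℝ) - L * Real.log x < q → n < q} : Set ℕ).Finite := by
    refine (Set.finite_Iic ⌊x⌋₊).subset ?_
    intro n hn
    exact Nat.le_floor hn.1
  refine (mul_le_mul_of_nonneg_left hexp hxpos.le).trans (hSl.trans ?_)
  have hcard : S.card = ((S : Set ℕ)).ncard := (Set.ncard_coe_finset S).symm
  rw [hcard]
  refine Nat.cast_le.2 (Set.ncard_le_ncard ?_ hfin)
  intro m hm
  rw [mem_coe, hS, mem_filter, mem_range] at hm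
  refine ⟨?_, hm.2.1, hm.2.2⟩
  have h1 : m ≤ ⌊x⌋₊ := by omega
  exact (Nat.cast_le.2 h1).trans (Nat.floor_le hxpos.le)

end Pool.Agent.Helper35.PX
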